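import Pool.Agent.TH621.RP.Cover

set_option autoImplicit false

/-! # Avoiding one residue modulo every prime -/

namespace Pool.Agent.TH621.RQ

open Finset Polynomial
open Pool.Agent.TH621.RP

open scoped Classical

/-- `D ^ E (F(-1/D) + k)` -/
def bd (D E : ℕ) (F : ℤ[X]) (k : ℤ) : ℤ :=
  ∑ i ∈ range (E + 1), F.coeff i * ((D : ℤ) ^ (E - i) * (-1) ^ i) + (D : ℤ) ^ E * k

theorem dvd_bd (D E : ℕ) (F : ℤ[X]) (hF : F.natDegree ≤ E) (k y : ℤ) :
    (1 + D * y) ∣ (D : ℤ) ^ E * (F.eval y + k) - bd D E F k := by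
  unfold bd
  rw [Polynomial.eval_eq_sum_range' (n := E + 1) (by omega)]
  have h1 : (D : ℤ) ^ E * (∑ i ∈ range (E + 1), F.coeff i * y ^ i + k) -
      (∑ i ∈ range (E + 1), F.coeff i * ((D : ℤ) ^ (E - i) * (-1) ^ i) + (D : ℤ) ^ E * k) =
      ∑ i ∈ range (E + 1), F.coeff i * ((D : ℤ) ^ (E - i) * ((D * y) ^ i - (-1) ^ i)) := by
    have h2 : ∀ i ∈ range (E + 1), (D : ℤ) ^ E * (F.coeff i * y ^ i) =
        F.coeff i * ((D : ℤ) ^ (E - i) * (D * y) ^ i) := by
      intro i hi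
      have hi' : i ≤ E := by
        have := mem_range.mp hi
        omega
      have h3 : (D : ℤ) ^ E = (D : ℤ) ^ (E - i) * (D : ℤ) ^ i := by
        rw [← pow_add]
        congr 1
        omega
      rw [h3, mul_pow]
      ring
    rw [mul_add, mul_sum, sum_congr rfl h2]
    have h4 : ∀ i ∈ range (E + 1), F.coeff i * ((D : ℤ) ^ (E - i) * ((D * y) ^ i - (-1) ^ i)) =
        F.coeff i * ((D : ℤ) ^ (E - i) * (D * y) ^ i) -
          F.coeff i * ((D : ℤ) ^ (E - i) * (-1) ^ i) := by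
      intro i _
      ring
    rw [sum_congr rfl h4, sum_sub_distrib]
    ring
  rw [h1]
  apply dvd_sum
  intro i _
  apply Dvd.dvd.mul_left
  apply Dvd.dvd.mul_left
  have h5 := sub_dvd_pow_sub_pow ((D : ℤ) * y) (-1) i
  have h6 : (D : ℤ) * y - -1 = 1 + D * y := by ring
  rwa [h6] at h5

theorem bd_abs (D E A₀ : ℕ) (hD : 1 ≤ D) (F : ℤ[X]) (hA : ∀ i, |F.coeff i| ≤ A₀) (k : ℤ) (T : ℕ)
    (hk : |k| ≤ T) : |bd D E F k| ≤ (D : ℤ) ^ E * ((E + 1) * A₀ + T) := by
  unfold bd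
  have hD' : (1 : ℤ) ≤ D := by exact_mod_cast hD
  have h1 : |∑ i ∈ range (E + 1), F.coeff i * ((D : ℤ) ^ (E - i) * (-1) ^ i)| ≤
      (D : ℤ) ^ E * ((E + 1) * A₀) := by
    refine (abs_sum_le_sum_abs _ _).trans ?_
    calc ∑ i ∈ range (E + 1), |F.coeff i * ((D : ℤ) ^ (E - i) * (-1) ^ i)|
        ≤ ∑ _i ∈ range (E + 1), (D : ℤ) ^ E * A₀ := by
          refine sum_le_sum fun i _ => ?_
          rw [abs_mul, abs_mul, abs_pow, abs_pow, abs_neg, abs_one, one_pow, mul_one,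
            abs_of_nonneg (by linarith : (0 : ℤ) ≤ D), mul_comm]
          have h2 : (D : ℤ) ^ (E - i) ≤ (D : ℤ) ^ E := pow_le_pow_right₀ hD' (by omega)
          exact mul_le_mul h2 (hA i) (abs_nonneg _) (by positivity)
      _ = (D : ℤ) ^ E * ((E + 1) * A₀) := by
          rw [sum_const, card_range, nsmul_eq_mul]
          push_cast
          ring
  have h2 : |(D : ℤ) ^ E * k| ≤ (D : ℤ) ^ E * T := by
    rw [abs_mul, abs_pow, abs_of_nonneg (by linarith : (0 : ℤ) ≤ D)]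
    exact mul_le_mul_of_nonneg_left hk (by positivity)
  refine (abs_add_le _ _).trans ?_
  rw [mul_add]
  exact add_le_add h1 h2

/-- a root of `F + k` modulo `q` is not the forbidden residue -/
theorem not_forb (D E : ℕ) (F : ℤ[X]) (hF : F.natDegree ≤ E) (k : ℤ) (q : ℕ) (a : ℤ)
    (h1 : (q : ℤ) ∣ F.eval a + k) (h2 : ¬ (q : ℤ) ∣ bd D E F k) : ¬ (q : ℤ) ∣ 1 + D * a := by
  intro h3
  apply h2
  have h4 := h3.trans (dvd_bd D E F hF k a)
  have h5 : (q : ℤ) ∣ (D : ℤ) ^ E * (F.eval a + k) := Dvd.dvd.mul_left h1 _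
  have h6 := dvd_sub h5 h4
  have h7 : (D : ℤ) ^ E * (F.eval a + k) - ((D : ℤ) ^ E * (F.eval a + k) - bd D E F k) =
      bd D E F k := by ring
  rwa [h7] at h6

/-- the allowed residues -/
noncomputable def Dm (D p : ℕ) : Finset ℕ :=
  (range p).filter (fun a : ℕ => ¬ (p : ℤ) ∣ 1 + D * (a : ℤ))

/-- the allowed residues killing `k` -/
noncomputable def RD (D : ℕ) (f : ℤ[X]) (k : ℤ) (p : ℕ) : Finset ℕ :=
  (RR f k p).filter (fun a : ℕ => ¬ (p : ℤ) ∣ 1 + D * (a : ℤ))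

theorem RD_sub (D : ℕ) (f : ℤ[X]) (k : ℤ) (p : ℕ) : RD D f k p ⊆ Dm D p := by
  intro a ha
  unfold RD RR at ha
  unfold Dm
  rw [mem_filter, mem_filter] at ha
  exact mem_filter.mpr ⟨ha.1.1, ha.2⟩

theorem RD_eq (D E : ℕ) (f : ℤ[X]) (hf : f.natDegree ≤ E) (k : ℤ) (p : ℕ)
    (h : ¬ (p : ℤ) ∣ bd D E f k) : RD D f k p = RR f k p := by
  unfold RD
  apply filter_true_of_mem
  intro a ha
  unfold RR at ha
  exact not_forb D E f hf k p a (mem_filter.mp ha).2 h

theorem Dm_ne (D p : ℕ) (hp : p.Prime) : (Dm D p).Nonempty := by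
  refine ⟨0, ?_⟩
  unfold Dm
  rw [mem_filter, mem_range]
  refine ⟨hp.pos, ?_⟩
  intro h
  have h1 : (p : ℤ) ∣ 1 := by simpa using h
  have h2 := Int.le_of_dvd one_pos h1
  have := hp.one_lt
  omega

theorem Dm_card (D p : ℕ) : (Dm D p).card ≤ p := by
  have := card_le_card (filter_subset (fun a : ℕ => ¬ (p : ℤ) ∣ 1 + D * (a : ℤ)) (range p))
  rwa [card_range] at this

/-- averaging over residues modulo one prime -/
theorem one_primeD {ι : Type} (C : Finset ι) (w : ι → ℝ) (Q : Finset ℕ) (hQ : Q.Nonempty)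
    (R : ι → Finset ℕ) (hR : ∀ c, R c ⊆ Q) :
    ∃ r ∈ Q, ∑ c ∈ C, (if r ∈ R c then 0 else w c) ≤
      ∑ c ∈ C, w c * (1 - ((R c).card : ℝ) / Q.card) := by
  have hp0 : (0 : ℝ) < Q.card := by exact_mod_cast card_pos.mpr hQ
  have h1 : ∑ r ∈ Q, ∑ c ∈ C, (if r ∈ R c then 0 else w c) =
      Q.card * ∑ c ∈ C, w c * (1 - ((R c).card : ℝ) / Q.card) := by
    rw [sum_comm, mul_sum]
    refine sum_congr rfl fun c _ => ?_
    have e1 : ∀ r ∈ Q, (if r ∈ R c then (0 : ℝ) else w c) =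
        w c - (if r ∈ R c then w c else 0) := by
      intro r _
      split_ifs <;> simp
    rw [sum_congr rfl e1, sum_sub_distrib, sum_const, nsmul_eq_mul, ← sum_filter,
      sum_const, nsmul_eq_mul]
    have e2 : Q.filter (fun r => r ∈ R c) = R c := by
      ext r
      rw [mem_filter]
      exact ⟨fun h => h.2, fun h => ⟨hR c h, h⟩⟩
    rw [e2]
    field_simp
  have h2 : ∑ r ∈ Q, ∑ c ∈ C, (if r ∈ R c then 0 else w c) ≤
      ∑ _r ∈ Q, ∑ c ∈ C, w c * (1 - ((R c).card : ℝ) / Q.card) := by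
    rw [h1, sum_const, nsmul_eq_mul]
  exact exists_le_of_sum_le hQ h2

/-- a good choice of residues -/
theorem choiceD {ι : Type} (𝓜 : Finset ℕ) (Q : ℕ → Finset ℕ) (hQ : ∀ p ∈ 𝓜, (Q p).Nonempty)
    (R : ι → ℕ → Finset ℕ) (hR : ∀ c p, R c p ⊆ Q p) (C : Finset ι) :
    ∀ w : ι → ℝ, (∀ c, 0 ≤ w c) →
    ∃ r : ℕ → ℕ, (∀ p ∈ 𝓜, r p ∈ Q p) ∧ ∑ c ∈ C.filter (fun c => ∀ p ∈ 𝓜, r p ∉ R c p), w c ≤
      ∑ c ∈ C, w c * ∏ p ∈ 𝓜, (1 - ((R c p).card : ℝ) / (Q p).card) := by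
  induction 𝓜 using Finset.induction_on with
  | empty =>
    intro w _
    exact ⟨fun _ => 0, by simp, by simp⟩
  | insert q 𝓜 hq ih =>
    intro w hw
    have hq0 := hQ q (mem_insert_self _ _)
    have hprod : ∀ c, 0 ≤ ∏ p ∈ 𝓜, (1 - ((R c p).card : ℝ) / (Q p).card) := by
      intro c
      refine prod_nonneg fun p hp => ?_
      have hp0 : (0 : ℝ) < (Q p).card := by
        exact_mod_cast card_pos.mpr (hQ p (mem_insert_of_mem hp))
      have : ((R c p).card : ℝ) ≤ (Q p).card := by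
        have := card_le_card (hR c p)
        exact_mod_cast this
      rw [sub_nonneg, div_le_one hp0]
      exact this
    obtain ⟨s, hsQ, hs⟩ := one_primeD C
      (fun c => w c * ∏ p ∈ 𝓜, (1 - ((R c p).card : ℝ) / (Q p).card)) (Q q) hq0
      (fun c => R c q) (fun c => hR c q)
    obtain ⟨r, hrQ, hr⟩ := ih (fun p hp => hQ p (mem_insert_of_mem hp))
      (fun c => if s ∈ R c q then 0 else w c) (fun c => by split_ifs; exacts [le_rfl, hw c])
    refine ⟨Function.update r q s, ?_, ?_⟩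
    · intro p hp
      rcases mem_insert.mp hp with rfl | hp'
      · rw [Function.update_self]
        exact hsQ
      · rw [Function.update_of_ne (by rintro rfl; exact hq hp')]
        exact hrQ p hp'
    have e1 : ∑ c ∈ C.filter (fun c => ∀ p ∈ insert q 𝓜, Function.update r q s p ∉ R c p), w c ≤
        ∑ c ∈ C.filter (fun c => ∀ p ∈ 𝓜, r p ∉ R c p), (if s ∈ R c q then 0 else w c) := by
      have e2 : ∑ c ∈ C.filter (fun c => ∀ p ∈ insert q 𝓜, Function.update r q s p ∉ R c p), w c =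
          ∑ c ∈ C.filter (fun c => ∀ p ∈ insert q 𝓜, Function.update r q s p ∉ R c p),
            (if s ∈ R c q then 0 else w c) := by
        refine sum_congr rfl fun c hc => ?_
        have := (mem_filter.mp hc).2 q (mem_insert_self _ _)
        rw [Function.update_self] at this
        rw [if_neg this]
      rw [e2]
      apply sum_le_sum_of_subset_of_nonneg
      · intro c hc
        rw [mem_filter] at hc ⊢
        refine ⟨hc.1, fun p hp => ?_⟩
        have h3 := hc.2 p (mem_insert_of_mem hp)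
        rwa [Function.update_of_ne (by rintro rfl; exact hq hp)] at h3
      · intro c _ _
        split_ifs
        exacts [le_rfl, hw c]
    refine e1.trans (hr.trans ?_)
    refine le_trans (le_of_eq ?_) (hs.trans (le_of_eq ?_))
    · refine sum_congr rfl fun c _ => ?_
      split_ifs <;> simp
    · refine sum_congr rfl fun c _ => ?_
      rw [prod_insert hq]
      ring

/-- bound for a product -/
theorem prod_le_expD (D E : ℕ) (f : ℤ[X]) (hf : f.natDegree ≤ E) (k : ℤ) (𝓜 : Finset ℕ)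
    (h𝓜 : ∀ p ∈ 𝓜, p.Prime) (hS : -1 ≤ SS f 𝓜 k)
    (hloss : ∑ p ∈ 𝓜.filter (fun p : ℕ => (p : ℤ) ∣ bd D E f k), ((RR f k p).card : ℝ) / p ≤ 1) :
    ∏ p ∈ 𝓜, (1 - ((RD D f k p).card : ℝ) / (Dm D p).card) ≤
      Real.exp (2 - ∑ p ∈ 𝓜, (1 : ℝ) / p) := by
  have h1 : ∏ p ∈ 𝓜, (1 - ((RD D f k p).card : ℝ) / (Dm D p).card) ≤
      ∏ p ∈ 𝓜, Real.exp (-(((RD D f k p).card : ℝ) / p)) := by
    refine prod_le_prod (fun p hp => ?_) fun p hp => ?_
    · have hp0 : (0 : ℝ) < (Dm D p).card := by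
        exact_mod_cast card_pos.mpr (Dm_ne D p (h𝓜 p hp))
      have : ((RD D f k p).card : ℝ) ≤ (Dm D p).card := by
        exact_mod_cast card_le_card (RD_sub D f k p)
      rw [sub_nonneg, div_le_one hp0]
      exact this
    · have h2 := Real.add_one_le_exp (-(((RD D f k p).card : ℝ) / p))
      have hp0 : (0 : ℝ) < (Dm D p).card := by
        exact_mod_cast card_pos.mpr (Dm_ne D p (h𝓜 p hp))
      have h3 : ((RD D f k p).card : ℝ) / p ≤ ((RD D f k p).card : ℝ) / (Dm D p).card := by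
        apply div_le_div_of_nonneg_left (Nat.cast_nonneg _) hp0
        exact_mod_cast Dm_card D p
      linarith
  refine h1.trans ?_
  rw [← Real.exp_sum]
  apply Real.exp_le_exp.mpr
  have h2 : ∑ p ∈ 𝓜, ((RR f k p).card : ℝ) / p = SS f 𝓜 k + ∑ p ∈ 𝓜, (1 : ℝ) / p := by
    unfold SS
    rw [← sum_add_distrib]
    refine sum_congr rfl fun p _ => ?_
    ring
  have h3 : ∑ p ∈ 𝓜, ((RR f k p).card : ℝ) / p ≤ ∑ p ∈ 𝓜, ((RD D f k p).card : ℝ) / p +
      ∑ p ∈ 𝓜.filter (fun p : ℕ => (p : ℤ) ∣ bd D E f k), ((RR f k p).card : ℝ) / p := by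
    rw [sum_filter, ← sum_add_distrib]
    refine sum_le_sum fun p _ => ?_
    split_ifs with h
    · have : (0 : ℝ) ≤ ((RD D f k p).card : ℝ) / p := by positivity
      linarith
    · rw [RD_eq D E f hf k p h, add_zero]
  rw [sum_neg_distrib]
  linarith

/-- number of prime factors -/
theorem card_pf_le (k : ℕ) (hk : 1 ≤ k) : (k.primeFactors.card : ℝ) ≤ 2 * Real.log k := by
  have h12 : 2 ^ k.primeFactors.card ≤ k := by
    calc 2 ^ k.primeFactors.card ≤ ∏ p ∈ k.primeFactors, p := by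
          rw [← prod_const]
          exact Finset.prod_le_prod' fun p hp => (Nat.prime_of_mem_primeFactors hp).two_le
      _ ≤ k := Nat.le_of_dvd (by omega) (Nat.prod_primeFactors_dvd k)
  have h14 : (k.primeFactors.card : ℝ) * Real.log 2 ≤ Real.log k := by
    rw [← Real.log_pow]
    apply Real.log_le_log (by positivity)
    exact_mod_cast h12
  have h15 := Real.log_two_gt_d9
  have h16 : (0 : ℝ) ≤ (k.primeFactors.card : ℝ) := by positivity
  nlinarith

end Pool.Agent.TH621.RQ
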