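import Pool.Agent.TH621.RQ.Bd

set_option autoImplicit false

/-! # The covering which keeps `1 + D n` coprime to all primes used -/

namespace Pool.Agent.TH621.RQ

open Finset Polynomial Filter
open Pool.Agent.TH621.RP

open Pool.Agent.H426R3.SQ (SP zR mertens_SP exists_inj_choice)

open scoped Classical

/-- largeness conditions -/
theorem ev_covP (n₀ M : ℝ) : ∃ l₀ : ℝ, ∀ l : ℝ, l₀ ≤ l → M ≤ l ∧ 1 ≤ Real.log l ∧
    1 ≤ Real.log (Real.log l) ∧ 30 * (Real.log l) ^ 2 ≤ l ∧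
    6 * n₀ * l * Real.exp (l / 5) ≤ Real.exp (l / 2) ∧ l ^ 3 ≤ Real.exp l := by
  obtain ⟨l₀, h⟩ := ev_cov n₀ M
  have h3 : ∀ᶠ l : ℝ in atTop, l ^ 3 ≤ Real.exp l := by
    have e1 := (Real.isLittleO_pow_exp_atTop (n := 3)).def (show (0 : ℝ) < 1 by norm_num)
    filter_upwards [e1, eventually_ge_atTop (0 : ℝ)] with L hL hL2
    rw [Real.norm_eq_abs, Real.norm_eq_abs, abs_of_nonneg (by positivity),
      abs_of_pos (Real.exp_pos _)] at hL
    linarith
  obtain ⟨l₁, h3⟩ := eventually_atTop.1 h3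
  refine ⟨max l₀ l₁, fun l hl => ?_⟩
  obtain ⟨a1, a2, a3, a4, a5⟩ := h l ((le_max_left _ _).trans hl)
  exact ⟨a1, a2, a3, a4, a5, h3 l ((le_max_right _ _).trans hl)⟩

/-- the final numerical inequality -/
theorem aux8P {n T l ll m3 z E A e x V₁ V₂ S : ℝ} (hn : 0 ≤ n) (hT : 0 ≤ T) (hl : 20 ≤ l)
    (hll : 1 ≤ ll) (hm : 1 ≤ m3) (hmll : m3 ≤ ll) (hA : 0 ≤ A) (he : 0 ≤ e) (hz : 0 ≤ z)
    (hzl : z ≤ Real.exp (l / 10)) (h5 : 6 * n * l * Real.exp (l / 5) ≤ Real.exp (l / 2))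
    (h1 : V₁ ≤ (n * (14 * (T / l))) * (e * (30 * ll ^ 2 / (l * m3))))
    (h2 : V₂ ≤ n * (3 * z ^ 2 + 6 * T * E ^ 2 / l ^ 3))
    (h3 : S ≤ n * (8 * T / l ^ 3)) :
    2 * x + (V₁ + V₂) * (2 * l) + S * (A * l) ≤ 2 * x + Real.exp (l / 2) +
      (n * (840 * e + 12 * E ^ 2 + 4 * (2 * A)) + 1) * (T * ll ^ 2 / (l * m3)) := by
  have h4 := aux8 (x := x) (S := S / 2) (A := 2 * A) hn hT hl hll hm hmll (by linarith) he hz hzl h5
    h1 h2 (by
      have e1 : n * (8 * T / l ^ 3) = 2 * (n * (4 * T / l ^ 3)) := by ring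
      rw [e1] at h3
      linarith)
  have h5 : S / 2 * (2 * A * l) = S * (A * l) := by ring
  rw [h5] at h4
  exact h4

theorem aux4P {n l T : ℝ} (hl : 0 < l) (hT : 0 ≤ T) (h : 8 * n ≤ l ^ 3) :
    n * (8 * T / l ^ 3) ≤ T := by
  have e1 : n * (8 * T / l ^ 3) = (8 * n) * T / l ^ 3 := by ring
  rw [e1, div_le_iff₀ (by positivity)]
  nlinarith

/-- multiples of a large prime -/
theorem mult_le {z : ℝ} (hz : 0 < z) (T p₁ : ℕ) (hp : z < p₁) :
    (((Icc 1 (2 * T)).filter (fun m => p₁ ∣ m)).card : ℝ) ≤ 2 * T / z := by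
  have hp0 : 0 < p₁ := by
    have : (0 : ℝ) < p₁ := hz.trans hp
    exact_mod_cast this
  have h1 : ((Icc 1 (2 * T)).filter (fun m => p₁ ∣ m)).card = 2 * T / p₁ := by
    have h2 : Icc 1 (2 * T) = Ioc 0 (2 * T) := by
      ext m
      rw [mem_Icc, mem_Ioc]
      omega
    rw [h2, Nat.Ioc_filter_dvd_card_eq_div]
  rw [h1]
  refine Nat.cast_div_le.trans ?_
  push_cast
  apply div_le_div_of_nonneg_left (by positivity) hz hp.le

theorem coverP (𝓕 : Finset ℤ[X]) (h𝓕 : ∀ f ∈ 𝓕, 1 ≤ f.natDegree) (D E : ℕ) (hD : 1 ≤ D)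
    (hfE : ∀ f ∈ 𝓕, f.natDegree ≤ E) :
    ∃ (C : ℝ) (A : ℕ), 0 < C ∧ ∃ x₀ : ℝ, ∀ x : ℝ, x₀ ≤ x → ∀ T : ℕ, x ≤ T →
    (T : ℝ) ≤ x * Real.log x → ∀ p₁ : ℕ, p₁.Prime → 2 * Real.log x < p₁ →
    ∃ (𝓢 : Finset ℕ) (a : ℕ → ℕ),
      (∀ p ∈ 𝓢, p.Prime ∧ (p : ℝ) ≤ x ^ A ∧ p ≠ p₁ ∧ ¬ (p : ℤ) ∣ 1 + D * (a p : ℤ)) ∧
      ∑ p ∈ 𝓢, Real.log p ≤ 2 * x + Real.exp (Real.log x / 2) +
        C * (T * (Real.log (Real.log x)) ^ 2 / (Real.log x * Real.log (Real.log (Real.log x)))) ∧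
      ∀ n : ℤ, (∀ p ∈ 𝓢, n ≡ (a p : ℤ) [ZMOD p]) → ∀ f ∈ 𝓕, ∀ k : ℤ, |k| ≤ T →
        bd D E f k ≠ 0 → ∃ p ∈ 𝓢, (p : ℤ) ∣ f.eval n + k := by
  obtain ⟨Cm, hCm, hmert⟩ := mertens_SP
  obtain ⟨x₁, hsmooth⟩ := smooth_le
  set A₀ : ℕ := 𝓕.sup (fun f => ∑ i ∈ f.support, (f.coeff i).natAbs) + 1 with hA₀
  have hfA : ∀ f ∈ 𝓕, ∀ i, |f.coeff i| ≤ A₀ := by
    intro f hf i
    have h1 := le_sup (f := fun f : ℤ[X] => ∑ i ∈ f.support, (f.coeff i).natAbs) hf
    have h2 : (f.coeff i).natAbs ≤ ∑ i ∈ f.support, (f.coeff i).natAbs := by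
      by_cases hi : i ∈ f.support
      · exact single_le_sum (f := fun i => (f.coeff i).natAbs) (fun _ _ => Nat.zero_le _) hi
      · rw [notMem_support_iff] at hi
        rw [hi]; simp
    have h3 : (f.coeff i).natAbs ≤ A₀ := by omega
    rw [Int.abs_eq_natAbs]
    exact_mod_cast h3
  obtain ⟨aK, haK, u₀, hlemK⟩ := lemK E A₀
  -- the bound for `bd`
  obtain ⟨H, hH⟩ : ∃ H : ℕ, H = D ^ E * ((E + 1) * A₀ + 1) := ⟨_, rfl⟩
  have hH2 : 2 ≤ H := by
    have h1 : 1 ≤ D ^ E := Nat.one_le_pow _ _ hD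
    have h2 : 1 ≤ (E + 1) * A₀ := Nat.mul_pos (by omega) (by omega)
    calc 2 = 1 * (1 + 1) := rfl
      _ ≤ D ^ E * ((E + 1) * A₀ + 1) := Nat.mul_le_mul h1 (by omega)
      _ = H := hH.symm
  have hbdH : ∀ f ∈ 𝓕, ∀ T : ℕ, 1 ≤ T → ∀ k : ℤ, |k| ≤ T → |bd D E f k| ≤ (H * T : ℕ) := by
    intro f hf T hT k hk
    refine (bd_abs D E A₀ hD f (hfA f hf) k T hk).trans ?_
    rw [hH]
    push_cast
    have hT' : (1 : ℤ) ≤ T := by exact_mod_cast hT
    have h1 : ((E : ℤ) + 1) * A₀ + T ≤ (((E : ℤ) + 1) * A₀ + 1) * T := by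
      have h2 : (0 : ℤ) ≤ ((E : ℤ) + 1) * A₀ := by positivity
      nlinarith
    calc (D : ℤ) ^ E * (((E : ℤ) + 1) * A₀ + T) ≤
        (D : ℤ) ^ E * ((((E : ℤ) + 1) * A₀ + 1) * T) :=
          mul_le_mul_of_nonneg_left h1 (by positivity)
      _ = (D : ℤ) ^ E * (((E : ℤ) + 1) * A₀ + 1) * T := by ring
  set n₀ : ℝ := (𝓕.card : ℝ) with hn₀
  have hn₀0 : 0 ≤ n₀ := Nat.cast_nonneg _
  obtain ⟨A, hA⟩ : ∃ A : ℕ, A = 2 * aK + 2 := ⟨_, rfl⟩
  set C : ℝ := n₀ * (840 * Real.exp (3 + Cm) + 12 * E ^ 2 + 4 * (2 * A)) + 1 with hC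
  have hC0 : 0 < C := by
    have : 0 ≤ n₀ * (840 * Real.exp (3 + Cm) + 12 * E ^ 2 + 4 * (2 * A)) := by positivity
    linarith
  obtain ⟨l₀, hl₀⟩ := ev_covP n₀ (max (max 20 (max A₀ (max u₀ (8 * n₀)))) (max (H + 2) (8 * E)))
  refine ⟨C, A, hC0, max x₁ (Real.exp l₀), ?_⟩
  intro x hx T hxT hTx p₁ hp₁ hp₁x
  have hx1 : x₁ ≤ x := (le_max_left _ _).trans hx
  have hx2 : Real.exp l₀ ≤ x := (le_max_right _ _).trans hx
  have hx0 : 0 < x := (Real.exp_pos _).trans_le hx2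
  set l := Real.log x with hl
  have hll : l₀ ≤ l := by rw [hl, Real.le_log_iff_exp_le hx0]; exact hx2
  obtain ⟨g1', g2, g3, g4, g5, g6⟩ := hl₀ l hll
  have g1 := (le_max_left _ _).trans g1'
  have g1a : 20 ≤ l := (le_max_left _ _).trans g1
  have g1b : (A₀ : ℝ) ≤ l := (le_max_left _ _).trans ((le_max_right _ _).trans g1)
  have g1c : (u₀ : ℝ) ≤ l :=
    (le_max_left _ _).trans ((le_max_right _ _).trans ((le_max_right _ _).trans g1))
  have g1d : 8 * n₀ ≤ l :=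
    (le_max_right _ _).trans ((le_max_right _ _).trans ((le_max_right _ _).trans g1))
  have g1e : (H : ℝ) + 2 ≤ l := (le_max_left _ _).trans ((le_max_right _ _).trans g1')
  have g1f : 8 * (E : ℝ) ≤ l := (le_max_right _ _).trans ((le_max_right _ _).trans g1')
  have hl0 : 0 < l := by linarith
  set ll := Real.log l with hlle
  set m3 := Real.log ll with hm3
  have hxe : x = Real.exp l := (Real.exp_log hx0).symm
  have hlx : l ≤ x := by
    rw [hxe]
    have := Real.add_one_le_exp l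
    linarith
  have hT0 : (0 : ℝ) < T := lt_of_lt_of_le hx0 hxT
  have hT0' : 0 < T := by exact_mod_cast hT0
  have hA₀T : (A₀ : ℤ) ≤ T := by
    have : (A₀ : ℝ) ≤ T := by linarith
    exact_mod_cast this
  have hf0 : ∀ f ∈ 𝓕, |f.eval 0| ≤ T := by
    intro f hf
    have := hfA f hf 0
    rw [Polynomial.coeff_zero_eq_eval_zero] at this
    exact this.trans hA₀T
  -- the parameters
  set z := zR x with hz
  have hlz : Real.log z = l * m3 / (10 * ll) := by
    rw [hz]; unfold zR; rw [Real.log_exp]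
  have hz0 : 0 < z := by rw [hz]; unfold zR; exact Real.exp_pos _
  set P : ℕ := ⌊l ^ 3⌋₊ with hP
  have hPle : (P : ℝ) ≤ l ^ 3 := Nat.floor_le (by positivity)
  have hPge : l ^ 3 - 1 < P := by
    have := Nat.lt_floor_add_one (l ^ 3)
    linarith
  have hl3 : 8000 ≤ l ^ 3 := by
    calc (8000 : ℝ) = 20 ^ 3 := by norm_num
      _ ≤ l ^ 3 := by gcongr
  have hPhalf : l ^ 3 / 2 ≤ P := by linarith
  have hP4 : (4 : ℝ) ≤ P := by linarith
  have hP0 : (0 : ℝ) < P := by linarith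
  have hl2 : 400 ≤ l ^ 2 := by
    calc (400 : ℝ) = 20 ^ 2 := by norm_num
      _ ≤ l ^ 2 := by gcongr
  have hl3' : 400 * l ≤ l ^ 3 := by
    calc 400 * l ≤ l ^ 2 * l := by gcongr
      _ = l ^ 3 := by ring
  have hPl : 4 * l < P := by linarith
  have hlPle : Real.log P ≤ 3 * ll := by
    calc Real.log P ≤ Real.log (l ^ 3) := Real.log_le_log hP0 hPle
      _ = 3 * ll := by rw [Real.log_pow]; norm_num; rfl
  have hlP0 : 0 < Real.log P := Real.log_pos (by linarith)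
  have hm3ll : m3 ≤ ll := by
    have := Real.log_le_sub_one_of_pos (show 0 < ll by linarith)
    linarith
  have hlz3 : 3 * ll ≤ Real.log z := by
    rw [hlz, le_div_iff₀ (by positivity)]
    have h1 := mul_le_mul_of_nonneg_left g3 hl0.le
    have h2 : 3 * ll * (10 * ll) = 30 * ll ^ 2 := by ring
    linarith
  have hlz0 : 0 < Real.log z := by linarith
  have hl3z : l ^ 3 ≤ z := by
    rw [← Real.log_le_log_iff (by positivity) hz0, Real.log_pow]
    exact_mod_cast hlz3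
  have hPz : (P : ℝ) ≤ z := hPle.trans hl3z
  have hlz10 : Real.log z ≤ l / 10 := by
    rw [hlz, div_le_iff₀ (by positivity)]
    have h1 := mul_le_mul_of_nonneg_left hm3ll hl0.le
    have h2 : l / 10 * (10 * ll) = l * ll := by ring
    linarith
  have hzx10 : z ≤ Real.exp (l / 10) := by
    rw [← Real.log_le_iff_le_exp hz0]
    exact hlz10
  have hzx : z ≤ x := by
    rw [hxe]
    exact hzx10.trans (Real.exp_le_exp.mpr (by linarith))
  set 𝓜 := (SP (P : ℝ) z ∅).erase p₁ with h𝓜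
  have h𝓜m : ∀ p, p ∈ 𝓜 ↔ p ≠ p₁ ∧ (1 ≤ p ∧ p ≤ ⌊z⌋₊) ∧ p.Prime ∧ P < p := by
    intro p
    rw [h𝓜, mem_erase]
    unfold SP
    rw [mem_filter, mem_Icc]
    simp
  have h𝓜z : ∀ p ∈ 𝓜, (p : ℝ) ≤ z := by
    intro p hp
    exact (Nat.le_floor_iff hz0.le).mp ((h𝓜m p).mp hp).2.1.2
  have h𝓜card : (𝓜.card : ℝ) ≤ z := by
    have h1 : 𝓜 ⊆ Icc 1 ⌊z⌋₊ := fun p hp => mem_Icc.mpr ((h𝓜m p).mp hp).2.1
    have h2 := card_le_card h1
    rw [Nat.card_Icc, Nat.add_sub_cancel] at h2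
    calc (𝓜.card : ℝ) ≤ (⌊z⌋₊ : ℝ) := by exact_mod_cast h2
      _ ≤ z := Nat.floor_le hz0.le
  -- colours
  set Cp : Finset (ℤ[X] × ℤ) := (𝓕 ×ˢ II T).filter
    (fun c => (c.1.eval 0 + c.2 ≠ 0 ∧ (c.1.eval 0 + c.2).natAbs.Prime) ∧
      (c.1.eval 0 + c.2).natAbs ≠ p₁ ∧ bd D E c.1 c.2 ≠ 0) with hCp
  set C₁ : Finset (ℤ[X] × ℤ) := Cp.filter (fun c => ¬ SS c.1 𝓜 c.2 < -1) with hC₁
  set V₂ : Finset (ℤ[X] × ℤ) := Cp.filter (fun c => SS c.1 𝓜 c.2 < -1) with hV₂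
  set Sm : Finset (ℤ[X] × ℤ) := (𝓕 ×ˢ II T).filter (fun c => (c.1.eval 0 + c.2 ≠ 0 ∧
    ∀ p : ℕ, p.Prime → p ∣ (c.1.eval 0 + c.2).natAbs → (p : ℝ) ≤ z ∨ p = p₁) ∧
      bd D E c.1 c.2 ≠ 0) with hSm
  -- prime colours
  have hexT : Real.exp l ≤ T := by rw [← hxe]; exact hxT
  have hCpc : (Cp.card : ℝ) ≤ n₀ * (14 * (T / l)) := by
    have h2 := primes_le (by linarith) hexT
    have h1 := fib_count 𝓕 T hf0 Nat.Prime (7 * (T / l)) (by convert h2)
    have h4 : Cp ⊆ (𝓕 ×ˢ II T).filter (fun c => c.1.eval 0 + c.2 ≠ 0 ∧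
        (c.1.eval 0 + c.2).natAbs.Prime) := by
      intro c hc
      rw [hCp, mem_filter] at hc
      exact mem_filter.mpr ⟨hc.1, hc.2.1⟩
    have h5 : (((𝓕 ×ˢ II T).filter (fun c => c.1.eval 0 + c.2 ≠ 0 ∧
        (c.1.eval 0 + c.2).natAbs.Prime)).card : ℝ) ≤ n₀ * (2 * (7 * (T / l))) := by
      rw [hn₀]
      convert h1
    have h3 : (Cp.card : ℝ) ≤ n₀ * (2 * (7 * (T / l))) :=
      (Nat.cast_le.mpr (card_le_card h4)).trans h5
    refine h3.trans (le_of_eq ?_)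
    ring
  -- smooth colours
  have hSmc : (Sm.card : ℝ) ≤ n₀ * (8 * T / l ^ 3) := by
    have h2 := hsmooth x hx1 T hxT
    have h1 := fib_count 𝓕 T hf0 (fun m => ∀ p : ℕ, p.Prime → p ∣ m → (p : ℝ) ≤ z)
      (2 * T / l ^ 3) h2
    by_cases hpz : (p₁ : ℝ) ≤ z
    · have h3 : Sm ⊆ (𝓕 ×ˢ II T).filter (fun c => c.1.eval 0 + c.2 ≠ 0 ∧
          ∀ p : ℕ, p.Prime → p ∣ (c.1.eval 0 + c.2).natAbs → (p : ℝ) ≤ z) := by
        intro c hc
        rw [hSm, mem_filter] at hc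
        refine mem_filter.mpr ⟨hc.1, hc.2.1.1, fun p hp hpd => ?_⟩
        rcases hc.2.1.2 p hp hpd with h | rfl
        · exact h
        · exact hpz
      refine le_trans (Nat.cast_le.mpr (card_le_card h3)) (h1.trans ?_)
      have h4 : (𝓕.card : ℝ) * (2 * (2 * T / l ^ 3)) = n₀ * (4 * T / l ^ 3) := by
        rw [hn₀]; ring
      rw [h4]
      apply mul_le_mul_of_nonneg_left _ hn₀0
      apply div_le_div_of_nonneg_right _ (by positivity)
      linarith
    · push Not at hpz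
      have h5 : (((Icc 1 (2 * T)).filter (fun m => p₁ ∣ m)).card : ℝ) ≤ 2 * T / l ^ 3 := by
        refine (mult_le hz0 T p₁ hpz).trans ?_
        gcongr
      have h6 := fib_count 𝓕 T hf0 (fun m => p₁ ∣ m) (2 * T / l ^ 3) (by convert h5)
      have h3 : Sm ⊆ (𝓕 ×ˢ II T).filter (fun c => c.1.eval 0 + c.2 ≠ 0 ∧
          ∀ p : ℕ, p.Prime → p ∣ (c.1.eval 0 + c.2).natAbs → (p : ℝ) ≤ z) ∪
          (𝓕 ×ˢ II T).filter (fun c => c.1.eval 0 + c.2 ≠ 0 ∧ p₁ ∣ (c.1.eval 0 + c.2).natAbs) := by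
        intro c hc
        rw [hSm, mem_filter] at hc
        rw [mem_union]
        by_cases hd : p₁ ∣ (c.1.eval 0 + c.2).natAbs
        · right
          exact mem_filter.mpr ⟨hc.1, hc.2.1.1, hd⟩
        · left
          refine mem_filter.mpr ⟨hc.1, hc.2.1.1, fun p hp hpd => ?_⟩
          rcases hc.2.1.2 p hp hpd with h | rfl
          · exact h
          · exact absurd hpd hd
      have h7 := (card_le_card h3).trans (card_union_le _ _)
      have h8 : (Sm.card : ℝ) ≤ (𝓕.card : ℝ) * (2 * (2 * T / l ^ 3)) +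
          (𝓕.card : ℝ) * (2 * (2 * T / l ^ 3)) := by
        have h9 : (Sm.card : ℝ) ≤ (((𝓕 ×ˢ II T).filter (fun c => c.1.eval 0 + c.2 ≠ 0 ∧
            ∀ p : ℕ, p.Prime → p ∣ (c.1.eval 0 + c.2).natAbs → (p : ℝ) ≤ z)).card : ℝ) +
            (((𝓕 ×ˢ II T).filter (fun c => c.1.eval 0 + c.2 ≠ 0 ∧
              p₁ ∣ (c.1.eval 0 + c.2).natAbs)).card : ℝ) := by exact_mod_cast h7
        have h10 : (((𝓕 ×ˢ II T).filter (fun c => c.1.eval 0 + c.2 ≠ 0 ∧
            ∀ p : ℕ, p.Prime → p ∣ (c.1.eval 0 + c.2).natAbs → (p : ℝ) ≤ z)).card : ℝ) ≤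
            (𝓕.card : ℝ) * (2 * (2 * T / l ^ 3)) := by convert h1
        have h11 : (((𝓕 ×ˢ II T).filter (fun c => c.1.eval 0 + c.2 ≠ 0 ∧
            p₁ ∣ (c.1.eval 0 + c.2).natAbs)).card : ℝ) ≤
            (𝓕.card : ℝ) * (2 * (2 * T / l ^ 3)) := by convert h6
        linarith
      refine h8.trans (le_of_eq ?_)
      rw [hn₀]; ring
  -- logarithms of multiples of `T`
  have hx1' : 1 ≤ x := by linarith
  have hlsq : l ^ 2 ≤ x := by
    rw [hxe]
    refine le_trans ?_ g6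
    calc l ^ 2 = l ^ 2 * 1 := (mul_one _).symm
      _ ≤ l ^ 2 * l := by gcongr; linarith
      _ = l ^ 3 := by ring
  have hHTx : ((H : ℝ) + 2) * T ≤ x ^ 2 := by
    calc ((H : ℝ) + 2) * T ≤ l * (x * l) := by
          apply mul_le_mul g1e hTx hT0.le hl0.le
      _ = x * l ^ 2 := by ring
      _ ≤ x * x := by gcongr
      _ = x ^ 2 := by ring
  have hHR : (2 : ℝ) ≤ H := by exact_mod_cast hH2
  have h4Tx : 4 * (T : ℝ) ≤ x ^ 2 := by
    refine le_trans ?_ hHTx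
    gcongr
    linarith
  have h4T : Real.log (4 * T) ≤ 2 * l := by
    calc Real.log (4 * T) ≤ Real.log (x ^ 2) :=
          Real.log_le_log (mul_pos (by norm_num) hT0) h4Tx
      _ = 2 * l := by rw [Real.log_pow]; norm_num; rfl
  have h2T : Real.log (2 * T) ≤ 2 * l :=
    (Real.log_le_log (mul_pos (by norm_num) hT0) (by linarith)).trans h4T
  have hxA : x ^ 2 ≤ x ^ A := pow_le_pow_right₀ hx1' (by omega)
  have hbdl : ∀ f ∈ 𝓕, ∀ k : ℤ, |k| ≤ T → bd D E f k ≠ 0 →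
      Real.log ((bd D E f k).natAbs : ℝ) ≤ 2 * l := by
    intro f hf k hk h0
    have h1 := hbdH f hf T hT0' k hk
    have h2 : (bd D E f k).natAbs ≤ H * T := by
      rw [Int.abs_eq_natAbs] at h1
      exact_mod_cast h1
    have h3 : (((bd D E f k).natAbs : ℕ) : ℝ) ≤ x ^ 2 := by
      refine le_trans (Nat.cast_le.mpr h2) (le_trans ?_ hHTx)
      push_cast
      gcongr
      linarith
    calc Real.log ((bd D E f k).natAbs : ℝ) ≤ Real.log (x ^ 2) := by
          apply Real.log_le_log _ h3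
          exact_mod_cast Int.natAbs_pos.mpr h0
      _ = 2 * l := by rw [Real.log_pow]; norm_num; rfl
  -- exceptional colours
  have hV₂c : (V₂.card : ℝ) ≤ n₀ * (3 * z ^ 2 + 6 * T * E ^ 2 / l ^ 3) := by
    have h1 := exc_count 𝓕 h𝓕 E A₀ P T hfE hfA (by
        have : (A₀ : ℝ) ≤ P := by linarith
        exact_mod_cast this) (by
        have : (1 : ℝ) ≤ P := by linarith
        exact_mod_cast this) 𝓜 (fun p hp => ((h𝓜m p).mp hp).2.2) V₂ (by
        intro c hc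
        rw [hV₂, mem_filter, hCp, mem_filter, mem_product] at hc
        exact ⟨hc.1.1.1, hc.1.1.2, hc.2⟩) hT0'
    refine h1.trans ?_
    have h5 := aux6 (E := (E : ℝ)) hT0.le hl0 hPhalf
    have h7 : (𝓜.card : ℝ) ^ 2 ≤ z ^ 2 := pow_le_pow_left₀ (Nat.cast_nonneg _) h𝓜card 2
    apply mul_le_mul_of_nonneg_left _ hn₀0
    linarith
  -- random residues
  obtain ⟨r, hrD, hr⟩ := choiceD 𝓜 (Dm D) (fun p hp => Dm_ne D p ((h𝓜m p).mp hp).2.2.1)
    (fun c : ℤ[X] × ℤ => fun p => RD D c.1 c.2 p) (fun c p => RD_sub D c.1 c.2 p) C₁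
    (fun _ => 1) (fun _ => zero_le_one)
  set V₁ : Finset (ℤ[X] × ℤ) := C₁.filter (fun c => ∀ p ∈ 𝓜, r p ∉ RD D c.1 c.2 p) with hV₁
  have hexpb : Real.exp (2 - ∑ p ∈ 𝓜, (1 : ℝ) / p) ≤
      Real.exp (3 + Cm) * (30 * ll ^ 2 / (l * m3)) := by
    have h1 := hmert P z hP4 hPz
    have h3 : ∑ p ∈ SP (P : ℝ) z ∅, (1 : ℝ) / p ≤ ∑ p ∈ 𝓜, (1 : ℝ) / p + 1 := by
      rw [h𝓜]
      by_cases hmem : p₁ ∈ SP (P : ℝ) z ∅
      · rw [← add_sum_erase _ _ hmem, add_comm]
        gcongr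
        rw [div_le_one (by exact_mod_cast hp₁.pos)]
        exact_mod_cast hp₁.one_lt.le
      · rw [erase_eq_of_notMem hmem]
        linarith
    have h2 : Real.exp (2 - ∑ p ∈ 𝓜, (1 : ℝ) / p) ≤
        Real.exp ((3 + Cm) + Real.log (Real.log P) - Real.log (Real.log z)) := by
      apply Real.exp_le_exp.mpr
      linarith
    refine h2.trans ?_
    rw [Real.exp_sub, Real.exp_add, Real.exp_log hlP0, Real.exp_log hlz0, mul_div_assoc]
    apply mul_le_mul_of_nonneg_left _ (Real.exp_pos _).le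
    rw [hlz]
    exact aux7 hl0 (by linarith) (by linarith) hlPle
  have hRE : ∀ f ∈ 𝓕, ∀ p ∈ 𝓜, ∀ k, ((RR f k p).card : ℝ) ≤ E := by
    intro f hf p hp k
    have hpp := ((h𝓜m p).mp hp).2.2
    have hlc0 : f.leadingCoeff ≠ 0 := by
      rw [Ne, Polynomial.leadingCoeff_eq_zero]
      rintro rfl
      have := h𝓕 0 hf
      simp at this
    have h1 := RR_card f (h𝓕 f hf) k p hpp.1 (by
      intro hd
      have h4 := Int.le_of_dvd (abs_pos.mpr hlc0) ((dvd_abs _ _).mpr hd)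
      have h5 : (p : ℤ) ≤ A₀ := h4.trans (hfA f hf _)
      have h6 : p ≤ A₀ := by exact_mod_cast h5
      have h7 : (A₀ : ℝ) ≤ P := by linarith
      have h8 : A₀ ≤ P := by exact_mod_cast h7
      omega)
    exact_mod_cast h1.trans (hfE f hf)
  have hloss : ∀ c ∈ C₁, ∑ p ∈ 𝓜.filter (fun p : ℕ => (p : ℤ) ∣ bd D E c.1 c.2),
      ((RR c.1 c.2 p).card : ℝ) / p ≤ 1 := by
    intro c hc
    rw [hC₁, mem_filter, hCp, mem_filter, mem_product, mem_II] at hc
    obtain ⟨⟨⟨hc1, hc2⟩, -, -, hc3⟩, -⟩ := hc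
    have h1 : ∀ p ∈ 𝓜.filter (fun p : ℕ => (p : ℤ) ∣ bd D E c.1 c.2),
        ((RR c.1 c.2 p).card : ℝ) / p ≤ E / P := by
      intro p hp
      rw [mem_filter] at hp
      have h2 := hRE c.1 hc1 p hp.1 c.2
      have h3 : (P : ℝ) ≤ p := by exact_mod_cast ((h𝓜m p).mp hp.1).2.2.2.le
      gcongr
    refine (sum_le_card_nsmul _ _ _ h1).trans ?_
    rw [nsmul_eq_mul]
    have h2 : 𝓜.filter (fun p : ℕ => (p : ℤ) ∣ bd D E c.1 c.2) ⊆
        (bd D E c.1 c.2).natAbs.primeFactors := by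
      intro p hp
      rw [mem_filter] at hp
      rw [Nat.mem_primeFactors]
      exact ⟨((h𝓜m p).mp hp.1).2.2.1, Int.natCast_dvd.mp hp.2, Int.natAbs_ne_zero.mpr hc3⟩
    have h3 : ((𝓜.filter (fun p : ℕ => (p : ℤ) ∣ bd D E c.1 c.2)).card : ℝ) ≤ 4 * l := by
      refine le_trans (Nat.cast_le.mpr (card_le_card h2)) ?_
      refine (card_pf_le _ (Int.natAbs_pos.mpr hc3)).trans ?_
      have := hbdl c.1 hc1 c.2 hc2 hc3
      linarith
    calc ((𝓜.filter (fun p : ℕ => (p : ℤ) ∣ bd D E c.1 c.2)).card : ℝ) * (E / P) ≤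
        (4 * l) * (E / P) := by gcongr
      _ ≤ 1 := by
        rw [mul_div_assoc', div_le_one hP0]
        have h5 : 4 * l * E ≤ l * l / 2 := by nlinarith
        have h6 : l * l ≤ l ^ 3 := by
          have : 0 ≤ l * l := by positivity
          nlinarith
        linarith
  have hV₁c : (V₁.card : ℝ) ≤ (n₀ * (14 * (T / l))) *
      (Real.exp (3 + Cm) * (30 * ll ^ 2 / (l * m3))) := by
    have h1 : (V₁.card : ℝ) = ∑ _c ∈ V₁, (1 : ℝ) := by simp
    rw [h1]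
    refine hr.trans ?_
    calc ∑ c ∈ C₁, 1 * ∏ p ∈ 𝓜, (1 - ((RD D c.1 c.2 p).card : ℝ) / (Dm D p).card)
        ≤ ∑ _c ∈ C₁, Real.exp (2 - ∑ p ∈ 𝓜, (1 : ℝ) / p) := by
          refine sum_le_sum fun c hc => ?_
          rw [one_mul]
          have hl := hloss c hc
          rw [hC₁, mem_filter, hCp, mem_filter, mem_product] at hc
          exact prod_le_expD D E c.1 (hfE _ hc.1.1.1) c.2 𝓜
            (fun p hp => ((h𝓜m p).mp hp).2.2.1) (not_lt.mp hc.2) hl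
      _ = (C₁.card : ℝ) * Real.exp (2 - ∑ p ∈ 𝓜, (1 : ℝ) / p) := by
          rw [sum_const, nsmul_eq_mul]
      _ ≤ (n₀ * (14 * (T / l))) * (Real.exp (3 + Cm) * (30 * ll ^ 2 / (l * m3))) := by
          apply mul_le_mul _ hexpb (Real.exp_pos _).le
            (mul_nonneg hn₀0 (mul_nonneg (by norm_num) (div_nonneg hT0.le hl0.le)))
          refine le_trans ?_ hCpc
          exact_mod_cast card_le_card (filter_subset _ _)
  -- extra primes
  set cand : ℤ[X] × ℤ → Finset ℕ := fun c => (Icc 1 ⌊x ^ A⌋₊).filter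
    (fun q => q.Prime ∧ H * T < q ∧ q ≠ p₁ ∧ ∃ b : ℕ, (q : ℤ) ∣ c.1.eval (b : ℤ) + c.2) with hcand
  have hSmT : Sm.card ≤ T := by
    have h1 : (Sm.card : ℝ) ≤ T := by
      exact hSmc.trans (aux4P hl0 hT0.le (by linarith))
    exact_mod_cast h1
  have hcard : ∀ c ∈ Sm, Sm.card ≤ (cand c).card := by
    intro c hc
    by_contra hcon
    push Not at hcon
    rw [hSm, mem_filter, mem_product, mem_II] at hc
    obtain ⟨⟨hc1, hc2⟩, ⟨hc3, hc4⟩, hc5⟩ := hc
    have hdeg : (c.1 + Polynomial.C c.2).natDegree = c.1.natDegree := natDegree_add_C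
    set U : Finset ℕ := insert p₁ ((Icc 1 (H * T)).filter Nat.Prime ∪ cand c) with hU
    have hUc : U.card ≤ (H + 2) * T := by
      refine (card_insert_le _ _).trans ?_
      have e0 := card_union_le ((Icc 1 (H * T)).filter Nat.Prime) (cand c)
      have e1 : ((Icc 1 (H * T)).filter Nat.Prime).card ≤ H * T := by
        have := card_le_card (filter_subset Nat.Prime (Icc 1 (H * T)))
        rwa [Nat.card_Icc, Nat.add_sub_cancel] at this
      have e2 : (H + 2) * T = H * T + 2 * T := by ring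
      omega
    obtain ⟨q, b, hq1, hq2, hq3, hq4⟩ := hlemK ((H + 2) * T) (by
        have h1 : (u₀ : ℝ) ≤ T := by linarith
        have h2 : u₀ ≤ T := by exact_mod_cast h1
        have h3 : T ≤ (H + 2) * T := Nat.le_mul_of_pos_left _ (by omega)
        omega) (c.1 + Polynomial.C c.2) (by rw [hdeg]; exact h𝓕 _ hc1)
      (by rw [hdeg]; exact hfE _ hc1)
      (fun i hi => by
        rw [coeff_add, coeff_C, if_neg (by omega), add_zero]
        exact hfA _ hc1 i)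
      (by
        rw [coeff_add, coeff_C, if_pos rfl, coeff_zero_eq_eval_zero]
        refine (abs_add_le _ _).trans ?_
        have := hf0 _ hc1
        push_cast
        have h5 : (0 : ℤ) ≤ (H : ℤ) * T := by positivity
        have h6 : ((H : ℤ) + 2) * T = H * T + 2 * T := by ring
        rw [h6]
        linarith)
      U (by
        intro p hp
        rw [hU, mem_insert, mem_union] at hp
        rcases hp with rfl | h | h
        · exact hp₁
        · exact (mem_filter.mp h).2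
        · rw [hcand] at h
          exact (mem_filter.mp h).2.1) hUc
    apply hq2
    rw [hU, mem_insert, mem_union]
    by_cases hqp : q = p₁
    · left; exact hqp
    right
    by_cases h2 : q ≤ H * T
    · left
      exact mem_filter.mpr ⟨mem_Icc.mpr ⟨hq1.one_lt.le, h2⟩, hq1⟩
    · right
      rw [hcand, mem_filter, mem_Icc]
      refine ⟨⟨hq1.one_lt.le, ?_⟩, hq1, by omega, hqp, b, ?_⟩
      · apply Nat.le_floor
        have e1 : (q : ℝ) ≤ (((H : ℝ) + 2) * T) ^ aK := by exact_mod_cast hq4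
        have e2 : (((H : ℝ) + 2) * T) ^ aK ≤ (x ^ 2) ^ aK :=
          pow_le_pow_left₀ (by positivity) hHTx aK
        rw [← pow_mul] at e2
        exact e1.trans (e2.trans (pow_le_pow_right₀ hx1' (by omega)))
      · simpa using hq3
  obtain ⟨pu, hpu, hinj⟩ := exists_inj_choice Sm cand hcard
  have hpu' : ∀ c ∈ Sm, (pu c).Prime ∧ H * T < pu c ∧ pu c ≠ p₁ ∧ (pu c : ℝ) ≤ x ^ A ∧
      ∃ b : ℕ, (pu c : ℤ) ∣ c.1.eval (b : ℤ) + c.2 := by
    intro c hc
    have h1 := hpu c hc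
    rw [hcand, mem_filter, mem_Icc] at h1
    refine ⟨h1.2.1, h1.2.2.1, h1.2.2.2.1, ?_, h1.2.2.2.2⟩
    exact (Nat.le_floor_iff (pow_nonneg hx0.le A)).mp h1.1.2
  have h2THT : 2 * T ≤ H * T := Nat.mul_le_mul_right T hH2
  have hbb : ∀ c : ℤ[X] × ℤ, ∃ b : ℕ, c ∈ Sm → (pu c : ℤ) ∣ c.1.eval (b : ℤ) + c.2 := by
    intro c
    by_cases h : c ∈ Sm
    · obtain ⟨b, hb⟩ := (hpu' c h).2.2.2.2
      exact ⟨b, fun _ => hb⟩
    · exact ⟨0, fun h' => absurd h' h⟩
  choose bb hbb using hbb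
  -- the assignment
  set a : ℕ → ℕ := fun p => if p ∈ 𝓜 then r p else
    if h : ∃ c ∈ Sm, pu c = p then bb h.choose else 0 with ha
  have ha1 : ∀ p ∈ 𝓜, a p = r p := by
    intro p hp
    rw [ha]
    simp only
    rw [if_pos hp]
  have hzT : z ≤ T := hzx.trans hxT
  have ha0 : ∀ p : ℕ, p ∉ 𝓜 → (¬ ∃ c ∈ Sm, pu c = p) → a p = 0 := by
    intro p hp hp2
    rw [ha]
    simp only
    rw [if_neg hp, dif_neg hp2]
  have ha2 : ∀ p : ℕ, p ∉ 𝓜 → p ≤ 2 * T → a p = 0 := by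
    intro p hp hp2
    apply ha0 p hp
    rintro ⟨c, hc, rfl⟩
    have := (hpu' c hc).2.1
    omega
  have hpuM : ∀ c ∈ Sm, pu c ∉ 𝓜 := by
    intro c hc h
    have h2 := h𝓜z _ h
    have h3 := (hpu' c hc).2.1
    have h4 : (2 * T : ℝ) < pu c := by
      have : 2 * T < pu c := by omega
      exact_mod_cast this
    linarith
  have ha3 : ∀ c ∈ Sm, a (pu c) = bb c := by
    intro c hc
    have h1 : pu c ∉ 𝓜 := hpuM c hc
    have h2 : ∃ c' ∈ Sm, pu c' = pu c := ⟨c, hc, rfl⟩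
    rw [ha]
    simp only
    rw [if_neg h1, dif_pos h2]
    congr 1
    exact hinj (mem_coe.mpr h2.choose_spec.1) (mem_coe.mpr hc) h2.choose_spec.2
  -- the forbidden residue is avoided
  have hforb : ∀ p : ℕ, p.Prime → ¬ (p : ℤ) ∣ 1 + D * (a p : ℤ) := by
    intro p hp
    by_cases hpM : p ∈ 𝓜
    · rw [ha1 p hpM]
      have h1 := hrD p hpM
      unfold Dm at h1
      exact (mem_filter.mp h1).2
    · by_cases hpS : ∃ c ∈ Sm, pu c = p
      · obtain ⟨c, hc, rfl⟩ := hpS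
        rw [ha3 c hc]
        have h1 := hpu' c hc
        have h2 := hc
        rw [hSm, mem_filter, mem_product, mem_II] at h2
        apply not_forb D E c.1 (hfE _ h2.1.1) c.2 (pu c) (bb c) (hbb c hc)
        intro hd
        have h3 := Int.le_of_dvd (abs_pos.mpr h2.2.2) ((dvd_abs _ _).mpr hd)
        have h4 := h3.trans (hbdH c.1 h2.1.1 T hT0' c.2 h2.1.2)
        have h5 : pu c ≤ H * T := by exact_mod_cast h4
        omega
      · rw [ha0 p hpM hpS]
        intro h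
        have h1 : (p : ℤ) ∣ 1 := by simpa using h
        have h2 := Int.le_of_dvd one_pos h1
        have := hp.one_lt
        omega
  set S₁ : Finset ℕ := (Icc 0 ⌊x⌋₊).filter (fun p => p.Prime ∧ p ≠ p₁) with hS₁
  set S₂ : Finset ℕ := (V₁ ∪ V₂).image (fun c => (c.1.eval 0 + c.2).natAbs) with hS₂
  set S₃ : Finset ℕ := Sm.image pu with hS₃
  have hVCp : ∀ c ∈ V₁ ∪ V₂, c ∈ Cp := by
    intro c hc
    rcases mem_union.mp hc with h | h
    · rw [hV₁, mem_filter, hC₁, mem_filter] at h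
      exact h.1.1
    · rw [hV₂, mem_filter] at h
      exact h.1
  have hS₂p : ∀ p ∈ S₂, p.Prime ∧ p ≤ 2 * T ∧ p ≠ p₁ := by
    intro p hp
    rw [hS₂, mem_image] at hp
    obtain ⟨c, hc, rfl⟩ := hp
    have h1 := hVCp c hc
    rw [hCp, mem_filter, mem_product, mem_II] at h1
    refine ⟨h1.2.1.2, ?_, h1.2.2.1⟩
    have e2 : |c.1.eval 0 + c.2| ≤ 2 * T :=
      (abs_add_le _ _).trans (by linarith [hf0 _ h1.1.1, h1.1.2])
    have e3 : (((c.1.eval 0 + c.2).natAbs : ℕ) : ℤ) ≤ ((2 * T : ℕ) : ℤ) := by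
      rw [Int.natCast_natAbs]
      push_cast
      exact e2
    exact_mod_cast e3
  refine ⟨(S₁ ∪ S₂) ∪ S₃, a, ?_, ?_, ?_⟩
  · -- primes, bounded
    intro p hp
    rw [mem_union, mem_union] at hp
    rcases hp with (h | h) | h
    · rw [hS₁, mem_filter, mem_Icc] at h
      refine ⟨h.2.1, ?_, h.2.2, hforb p h.2.1⟩
      have h1 : (p : ℝ) ≤ x := (Nat.le_floor_iff hx0.le).mp h.1.2
      refine h1.trans (le_trans ?_ hxA)
      exact le_self_pow₀ hx1' (by norm_num)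
    · obtain ⟨h1, h2, h3⟩ := hS₂p p h
      refine ⟨h1, ?_, h3, hforb p h1⟩
      have h3 : (p : ℝ) ≤ 2 * T := by exact_mod_cast h2
      linarith
    · rw [hS₃, mem_image] at h
      obtain ⟨c, hc, rfl⟩ := h
      have h1 := hpu' c hc
      exact ⟨h1.1, h1.2.2.2.1, h1.2.2.1, hforb _ h1.1⟩
  · -- cost
    have hunion : ∀ s t : Finset ℕ, ∑ p ∈ s ∪ t, Real.log (p : ℝ) ≤
        ∑ p ∈ s, Real.log (p : ℝ) + ∑ p ∈ t, Real.log (p : ℝ) := by
      intro s t
      rw [← sum_union_inter]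
      have : 0 ≤ ∑ p ∈ s ∩ t, Real.log (p : ℝ) :=
        sum_nonneg fun p _ => Real.log_natCast_nonneg p
      linarith
    have c1 : ∑ p ∈ S₁, Real.log (p : ℝ) ≤ 2 * x := by
      have e0 : ∑ p ∈ S₁, Real.log (p : ℝ) ≤
          ∑ p ∈ (Icc 0 ⌊x⌋₊).filter Nat.Prime, Real.log (p : ℝ) := by
        apply sum_le_sum_of_subset_of_nonneg
        · intro p hp
          rw [hS₁, mem_filter] at hp
          exact mem_filter.mpr ⟨hp.1, hp.2.1⟩
        · intro p _ _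
          exact Real.log_natCast_nonneg p
      refine e0.trans ?_
      have e1 := Chebyshev.theta_le_log4_mul_x hx0.le
      rw [Chebyshev.theta_eq_sum_Icc] at e1
      refine e1.trans ?_
      have e2 : Real.log 4 ≤ 2 := by
        have h5 : Real.log 4 = 2 * Real.log 2 := by
          rw [show (4 : ℝ) = 2 ^ 2 by norm_num, Real.log_pow]; norm_num
        have h6 := Real.log_two_lt_d9
        linarith
      exact mul_le_mul_of_nonneg_right e2 hx0.le
    have c2 : ∑ p ∈ S₂, Real.log (p : ℝ) ≤ ((V₁.card : ℝ) + V₂.card) * (2 * l) := by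
      have e1 : ∑ p ∈ S₂, Real.log (p : ℝ) ≤ ∑ _p ∈ S₂, 2 * l := by
        refine sum_le_sum fun p hp => ?_
        obtain ⟨h1, h2, -⟩ := hS₂p p hp
        refine le_trans ?_ h2T
        apply Real.log_le_log (by exact_mod_cast h1.pos)
        exact_mod_cast h2
      refine e1.trans ?_
      rw [sum_const, nsmul_eq_mul]
      apply mul_le_mul_of_nonneg_right _ (by linarith)
      have e2 : S₂.card ≤ V₁.card + V₂.card := card_image_le.trans (card_union_le _ _)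
      exact_mod_cast e2
    have c3 : ∑ p ∈ S₃, Real.log (p : ℝ) ≤ (Sm.card : ℝ) * (A * l) := by
      have e1 : ∑ p ∈ S₃, Real.log (p : ℝ) ≤ ∑ _p ∈ S₃, A * l := by
        refine sum_le_sum fun p hp => ?_
        rw [hS₃, mem_image] at hp
        obtain ⟨c, hc, rfl⟩ := hp
        have h1 := hpu' c hc
        have h2 := Real.log_le_log (by exact_mod_cast h1.1.pos) h1.2.2.2.1
        rwa [Real.log_pow, ← hl] at h2
      refine e1.trans ?_
      rw [sum_const, nsmul_eq_mul]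
      apply mul_le_mul_of_nonneg_right _ (mul_nonneg (Nat.cast_nonneg A) hl0.le)
      have e2 : S₃.card ≤ Sm.card := card_image_le
      exact_mod_cast e2
    have c4 := aux8P (x := x) hn₀0 hT0.le g1a g2 g3 hm3ll (Nat.cast_nonneg A)
      (Real.exp_pos (3 + Cm)).le hz0.le hzx10 g5 hV₁c hV₂c hSmc
    have c5 := hunion (S₁ ∪ S₂) S₃
    have c6 := hunion S₁ S₂
    rw [hC]
    linarith
  · -- killing
    intro n hn f hf k hk hbd
    have hkI : k ∈ II T := mem_II.mpr hk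
    have hzero : ∀ p : ℕ, p ∈ (S₁ ∪ S₂) ∪ S₃ → p ∉ 𝓜 → p ≤ 2 * T →
        (p : ℤ) ∣ f.eval 0 + k → ∃ p ∈ (S₁ ∪ S₂) ∪ S₃, (p : ℤ) ∣ f.eval n + k := by
      intro p hp hpM hpT hd
      refine ⟨p, hp, dvd_shift f p n 0 k ?_ hd⟩
      have h1 := hn p hp
      rw [ha2 p hpM hpT] at h1
      simpa using h1
    have hS₁m : ∀ p : ℕ, p.Prime → (p : ℝ) ≤ x → p ≠ p₁ → p ∈ (S₁ ∪ S₂) ∪ S₃ := by
      intro p hp hpx hpp
      apply mem_union_left
      apply mem_union_left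
      rw [hS₁, mem_filter, mem_Icc]
      exact ⟨⟨Nat.zero_le _, Nat.le_floor hpx⟩, hp, hpp⟩
    have hxT2 : ∀ p : ℕ, (p : ℝ) ≤ x → p ≤ 2 * T := by
      intro p hp
      have : (p : ℝ) ≤ 2 * T := by linarith
      exact_mod_cast this
    have hPx : (P : ℝ) ≤ x := hPz.trans hzx
    by_cases ht0 : f.eval 0 + k = 0
    · have h2x : ((2 : ℕ) : ℝ) ≤ x := by push_cast; linarith
      refine hzero 2 (hS₁m 2 Nat.prime_two h2x ?_) ?_ (hxT2 2 h2x) (by rw [ht0]; exact dvd_zero _)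
      · rintro rfl
        push_cast at hp₁x
        linarith
      · intro h
        have h1 := ((h𝓜m 2).mp h).2.2.2
        have h2 : (P : ℝ) < 2 := by exact_mod_cast h1
        linarith
    by_cases hsm : ∃ p : ℕ, p.Prime ∧ p ≤ P ∧ p ≠ p₁ ∧ (p : ℤ) ∣ f.eval 0 + k
    · obtain ⟨p, hp1, hp2, hpp, hp3⟩ := hsm
      have hpx : (p : ℝ) ≤ x := by
        have : (p : ℝ) ≤ P := by exact_mod_cast hp2
        linarith
      refine hzero p (hS₁m p hp1 hpx hpp) ?_ (hxT2 p hpx) hp3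
      intro h
      have h1 := ((h𝓜m p).mp h).2.2.2
      omega
    by_cases hmd : ∃ p : ℕ, p.Prime ∧ z < p ∧ (p : ℝ) ≤ x ∧ p ≠ p₁ ∧ (p : ℤ) ∣ f.eval 0 + k
    · obtain ⟨p, hp1, hp2, hp3, hpp, hp4⟩ := hmd
      refine hzero p (hS₁m p hp1 hp3 hpp) ?_ (hxT2 p hp3) hp4
      intro h
      have h1 := h𝓜z p h
      linarith
    push Not at hsm hmd
    by_cases hs : ∀ p : ℕ, p.Prime → p ∣ (f.eval 0 + k).natAbs → (p : ℝ) ≤ z ∨ p = p₁
    · -- smooth
      have hc : (f, k) ∈ Sm := by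
        rw [hSm, mem_filter, mem_product]
        exact ⟨⟨hf, hkI⟩, ⟨ht0, hs⟩, hbd⟩
      have hmem : pu (f, k) ∈ (S₁ ∪ S₂) ∪ S₃ := by
        apply mem_union_right
        rw [hS₃, mem_image]
        exact ⟨_, hc, rfl⟩
      refine ⟨pu (f, k), hmem, dvd_shift f _ n (bb (f, k)) k ?_ (hbb _ hc)⟩
      have h1 := hn _ hmem
      rwa [ha3 _ hc] at h1
    · -- a large prime factor
      push Not at hs
      obtain ⟨q, hq1, hq2, hq3, hqp⟩ := hs
      have hqd : (q : ℤ) ∣ f.eval 0 + k := Int.natCast_dvd.mpr hq2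
      have hqx : x < q := by
        by_contra hcon
        push Not at hcon
        exact hmd q hq1 hq3 hcon hqp hqd
      obtain ⟨m', hm'⟩ := hq2
      have habs : (f.eval 0 + k).natAbs ≤ 2 * T := by
        have e2 : |f.eval 0 + k| ≤ 2 * T :=
          (abs_add_le _ _).trans (by linarith [hf0 _ hf, hk])
        have e3 : (((f.eval 0 + k).natAbs : ℕ) : ℤ) ≤ ((2 * T : ℕ) : ℤ) := by
          rw [Int.natCast_natAbs]
          push_cast
          exact e2
        exact_mod_cast e3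
      have hm'1 : m' = 1 := by
        by_contra hne
        obtain ⟨p, hp1, hp2⟩ := Nat.exists_prime_and_dvd hne
        have hm'0 : 0 < m' := by
          rcases Nat.eq_zero_or_pos m' with h | h
          · rw [h, mul_zero, Int.natAbs_eq_zero] at hm'
            exact absurd hm' ht0
          · exact h
        have hpm : p ≤ m' := Nat.le_of_dvd hm'0 hp2
        have h1 : (q : ℝ) * m' ≤ 2 * T := by
          rw [hm'] at habs
          exact_mod_cast habs
        have h2 : x * m' ≤ x * (2 * l) := by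
          have e1 : x * m' ≤ q * m' := mul_le_mul_of_nonneg_right hqx.le (Nat.cast_nonneg _)
          linarith
        have h3 : (m' : ℝ) ≤ 2 * l := le_of_mul_le_mul_left h2 hx0
        have hpR : (p : ℝ) ≤ m' := by exact_mod_cast hpm
        apply hsm p hp1 _ _ (Int.natCast_dvd.mpr (by rw [hm']; exact Dvd.dvd.mul_left hp2 q))
        · have h4 : (m' : ℝ) ≤ P := by linarith
          have h5 : m' ≤ P := by exact_mod_cast h4
          omega
        · rintro rfl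
          linarith
      rw [hm'1, mul_one] at hm'
      have hcp : (f, k) ∈ Cp := by
        rw [hCp, mem_filter, mem_product]
        refine ⟨⟨hf, hkI⟩, ⟨ht0, ?_⟩, ?_, hbd⟩
        · show (f.eval 0 + k).natAbs.Prime
          rw [hm']
          exact hq1
        · show (f.eval 0 + k).natAbs ≠ p₁
          rw [hm']
          exact hqp
      have hq2T : q ≤ 2 * T := by rw [← hm']; exact habs
      have hqM : q ∉ 𝓜 := by
        intro h
        have := h𝓜z q h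
        linarith
      have hV : (f, k) ∈ V₁ ∪ V₂ → ∃ p ∈ (S₁ ∪ S₂) ∪ S₃, (p : ℤ) ∣ f.eval n + k := by
        intro h
        refine hzero q ?_ hqM hq2T hqd
        apply mem_union_left
        apply mem_union_right
        rw [hS₂, mem_image]
        exact ⟨_, h, hm'⟩
      by_cases hex : SS f 𝓜 k < -1
      · apply hV
        apply mem_union_right
        rw [hV₂, mem_filter]
        exact ⟨hcp, hex⟩
      · by_cases hsv : ∀ p ∈ 𝓜, r p ∉ RD D f k p
        · apply hV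
          apply mem_union_left
          rw [hV₁, mem_filter, hC₁, mem_filter]
          exact ⟨⟨hcp, hex⟩, hsv⟩
        · push Not at hsv
          obtain ⟨p, hp1, hp2⟩ := hsv
          have hpz := h𝓜z p hp1
          have hpm := (h𝓜m p).mp hp1
          have hmem := hS₁m p hpm.2.2.1 (hpz.trans hzx) hpm.1
          refine ⟨p, hmem, dvd_shift f p n (r p) k ?_ ?_⟩
          · have h1 := hn p hmem
            rwa [ha1 p hp1] at h1
          · unfold RD RR at hp2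
            rw [mem_filter, mem_filter] at hp2
            exact hp2.1.2

end Pool.Agent.TH621.RQ
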