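import Pool.Agent.TH621.RP.Rat

set_option autoImplicit false

/-! # The exceptional modulus and the comparison of the scales -/

namespace Pool.Agent.TH621.RQ

open Finset Polynomial
open Pool.Agent.TH621.RP

/-- one prime whose removal keeps a modulus away from `f` -/
theorem exc_prime (f D : ℕ) (t : ℝ) (ht : 0 ≤ t) (hD : 1 ≤ D) (hDt : (D : ℝ) ≤ t)
    (hf : (D : ℝ) * 4 ^ ⌊t⌋₊ < f) : ∃ p₁ : ℕ, p₁.Prime ∧ t < p₁ ∧
    ∀ 𝓢 : Finset ℕ, (∀ p ∈ 𝓢, p.Prime ∧ p ≠ p₁) → ¬ f ∣ D * ∏ p ∈ 𝓢, p := by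
  by_cases h : ∃ p : ℕ, p.Prime ∧ p ∣ f ∧ t < p
  · obtain ⟨p₁, hp, hpf, hpt⟩ := h
    refine ⟨p₁, hp, hpt, fun 𝓢 h𝓢 hdvd => ?_⟩
    rcases hp.dvd_mul.mp (hpf.trans hdvd) with h1 | h1
    · have h2 : (p₁ : ℝ) ≤ D := by exact_mod_cast Nat.le_of_dvd hD h1
      linarith
    · obtain ⟨q, hq, hpq⟩ := (Prime.dvd_finsetProd_iff hp.prime _).mp h1
      exact (h𝓢 q hq).2 ((Nat.prime_dvd_prime_iff_eq hp (h𝓢 q hq).1).mp hpq).symm
  · push Not at h
    obtain ⟨p₁, hp1, hp2⟩ := Nat.exists_infinite_primes (⌊t⌋₊ + 1)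
    refine ⟨p₁, hp2, (Nat.lt_floor_add_one t).trans_le (by exact_mod_cast hp1), ?_⟩
    intro 𝓢 h𝓢 hdvd
    have h1 : ∏ p ∈ 𝓢, p = (∏ p ∈ 𝓢.filter (fun p => p ≤ ⌊t⌋₊), p) *
        ∏ p ∈ 𝓢.filter (fun p => ¬ p ≤ ⌊t⌋₊), p :=
      (prod_filter_mul_prod_filter_not 𝓢 _ _).symm
    rw [h1, ← mul_assoc] at hdvd
    have h2 : f.Coprime (∏ p ∈ 𝓢.filter (fun p => ¬ p ≤ ⌊t⌋₊), p) := by
      apply Nat.Coprime.prod_right
      intro p hp
      rw [mem_filter] at hp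
      rw [Nat.coprime_comm, Nat.Prime.coprime_iff_not_dvd (h𝓢 p hp.1).1]
      intro hpf
      apply hp.2
      exact Nat.le_floor (h p (h𝓢 p hp.1).1 hpf)
    have h3 := h2.dvd_of_dvd_mul_right hdvd
    have h4 : ∏ p ∈ 𝓢.filter (fun p => p ≤ ⌊t⌋₊), p ≤ 4 ^ ⌊t⌋₊ := by
      refine le_trans ?_ (primorial_le_four_pow ⌊t⌋₊)
      unfold primorial
      apply prod_le_prod_of_subset_of_one_le'
      · intro p hp
        rw [mem_filter] at hp ⊢
        rw [mem_range]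
        exact ⟨by omega, (h𝓢 p hp.1).1⟩
      · intro p hp _
        exact (mem_filter.mp hp).2.one_lt.le
    have h5 : 0 < D * ∏ p ∈ 𝓢.filter (fun p => p ≤ ⌊t⌋₊), p :=
      Nat.mul_pos hD (prod_pos fun p hp => (h𝓢 p (mem_filter.mp hp).1).1.pos)
    have h6 := Nat.le_of_dvd h5 h3
    have h7 : f ≤ D * 4 ^ ⌊t⌋₊ := h6.trans (Nat.mul_le_mul_left D h4)
    have h8 : (f : ℝ) ≤ (D : ℝ) * 4 ^ ⌊t⌋₊ := by exact_mod_cast h7
    linarith

theorem four_pow_le (x : ℝ) (hx : 1 ≤ x) : (4 : ℝ) ^ ⌊2 * Real.log x⌋₊ ≤ x ^ 3 := by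
  have hx0 : 0 < x := by linarith
  have hl : 0 ≤ Real.log x := Real.log_nonneg hx
  have h1 : (⌊2 * Real.log x⌋₊ : ℝ) ≤ 2 * Real.log x := Nat.floor_le (by linarith)
  have h5 : Real.log 4 = 2 * Real.log 2 := by
    rw [show (4 : ℝ) = 2 ^ 2 by norm_num, Real.log_pow]; norm_num
  have h6 := Real.log_two_lt_d9
  have h7 : 0 ≤ Real.log 4 := Real.log_nonneg (by norm_num)
  rw [← Real.log_le_log_iff (by positivity) (by positivity), Real.log_pow, Real.log_pow]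
  push_cast
  calc (⌊2 * Real.log x⌋₊ : ℝ) * Real.log 4 ≤ (2 * Real.log x) * Real.log 4 := by gcongr
    _ ≤ 3 * Real.log x := by
      rw [h5]
      nlinarith

open Pool.Agent.H256R2.SC.LG in
/-- comparison of the length at `X` and at `X ^ θ` -/
theorem rankin_pow (θ : ℝ) (hθ : 0 < θ) (hθ1 : θ ≤ 1) (B : ℝ) : ∃ X₀ : ℝ, ∀ X : ℝ, X₀ ≤ X →
    1 ≤ X ∧ θ / 4 * rankin X ≤ rankin (X ^ θ) ∧ B ≤ rankin X := by
  obtain ⟨Y₀, h⟩ := ev_log (max 100 (max (-(2 * Real.log θ)) B))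
  refine ⟨Y₀, fun Y hY => ?_⟩
  obtain ⟨h1, m1, m2, m3, m4⟩ := h Y hY
  set M := max 100 (max (-(2 * Real.log θ)) B) with hM
  have M1 : 100 ≤ M := le_max_left _ _
  have M2 : -(2 * Real.log θ) ≤ M := (le_max_left _ _).trans (le_max_right _ _)
  have M3 : B ≤ M := (le_max_right _ _).trans (le_max_right _ _)
  have hY0 : 0 < Y := by linarith
  set l1 := Real.log Y with hl1
  set l2 := Real.log l1 with hl2
  set l3 := Real.log l2 with hl3
  set l4 := Real.log l3 with hl4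
  have p1 : 0 < l1 := by linarith
  have p2 : 0 < l2 := by linarith
  have p3 : 0 < l3 := by linarith
  have p4 : 0 < l4 := by linarith
  have hlog10 := log10_lt
  set k1 := Real.log (Y ^ θ) with hk1
  have e1 : k1 = θ * l1 := by rw [hk1, Real.log_rpow hY0]
  have hk10 : 0 < k1 := by rw [e1]; positivity
  have k1b : k1 ≤ l1 := by rw [e1]; nlinarith
  have e2 : Real.log k1 = Real.log θ + l2 := by
    rw [e1, Real.log_mul hθ.ne' p1.ne']
  have k2a : l2 / 2 ≤ Real.log k1 := by rw [e2]; linarith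
  have k2b : Real.log k1 ≤ l2 := Real.log_le_log hk10 k1b
  set k2 := Real.log k1 with hk2
  have hk20 : 0 < k2 := by linarith
  have k3a : l3 / 2 ≤ Real.log k2 := half_log (by linarith) (by linarith) p2
  have k3b : Real.log k2 ≤ l3 := Real.log_le_log hk20 k2b
  set k3 := Real.log k2 with hk3
  have hk30 : 0 < k3 := by linarith
  have k4a : l4 / 2 ≤ Real.log k3 := half_log (by linarith) (by linarith) p3
  set k4 := Real.log k3 with hk4
  have hk40 : 0 < k4 := by linarith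
  have r1 : rankin Y = l1 * l2 * l4 / l3 ^ 2 := rfl
  have r2 : rankin (Y ^ θ) = k1 * k2 * k4 / k3 ^ 2 := rfl
  refine ⟨h1, ?_, ?_⟩
  · rw [r1, r2]
    calc θ / 4 * (l1 * l2 * l4 / l3 ^ 2) = (θ * l1) * (l2 / 2) * (l4 / 2) / l3 ^ 2 := by ring
      _ = k1 * (l2 / 2) * (l4 / 2) / l3 ^ 2 := by rw [e1]
      _ ≤ k1 * k2 * k4 / k3 ^ 2 := by gcongr
  · rw [r1]
    have q1 : l3 ^ 2 ≤ 4 * l2 := log_sq_le (by linarith)
    rw [le_div_iff₀ (by positivity)]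
    have e5 : B * l3 ^ 2 ≤ l1 * (4 * l2) := by
      calc B * l3 ^ 2 ≤ l1 * l3 ^ 2 := by
            apply mul_le_mul_of_nonneg_right _ (sq_nonneg _)
            linarith
        _ ≤ l1 * (4 * l2) := by gcongr
    have e6 : l1 * (4 * l2) ≤ l1 * l2 * l4 := by
      have : 0 < l1 * l2 := by positivity
      nlinarith
    linarith

end Pool.Agent.TH621.RQ
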