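import Pool.Agent.W215.MH.Lin

/-!
# Primes in progressions away from one exceptional modulus: the sum over prime powers

Copy of `Pool.Agent.TH909.linX` which records that the threshold `lam` is at most `1/2`.
-/

set_option autoImplicit false

open Finset

namespace Pool.Agent.TH621.RQ

open Pool.Agent.H262R3.Lk Pool.Agent.W69.MH Pool.Agent.W215.MH

/-- the lower bound in every class if no real character is exceptional, and repulsion -/
def St_LINY : Prop := ∃ A c lam : ℝ, 1 ≤ A ∧ 0 < c ∧ 0 < lam ∧ lam ≤ 1 / 2 ∧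
  (∀ (z q b : ℕ) [NeZero q], 32 ≤ z → q ^ 8 ≤ z → b.Coprime q →
    (∀ χ : DirichletCharacter ℂ q, χ ≠ 1 → χ ^ 2 = 1 → lam ≤ ‖Lj z χ 0 (1 / (A * Real.log z))‖) →
    c * (Real.log z) ^ 3 / q.totient ≤ Bj z q b 2 (1 / (A * Real.log z))) ∧
  (∀ (z q : ℕ) [NeZero q], 32 ≤ z → q ^ 8 ≤ z → ∀ χ ψ : DirichletCharacter ℂ q,
    χ ≠ 1 → χ ^ 2 = 1 → ψ ≠ 1 → ψ ^ 2 = 1 → χ ≠ ψ →
    ‖Lj z χ 0 (1 / (A * Real.log z))‖ < lam → ‖Lj z ψ 0 (1 / (A * Real.log z))‖ < lam → False)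

theorem linY (hSUM : St_SUM) (hDIFF : St_DIFF) (hA0 : St_A0) (hB0 : St_B0) (hB2 : St_B2)
    (hALG : St_ALG) (hEUL : St_EUL) (hCLS : St_CLS) (hABS : St_ABS) : St_LINY := by
  obtain ⟨C1, hC1, hD⟩ := hDIFF
  obtain ⟨C2, hC2, hA⟩ := hA0
  obtain ⟨C3, hC3, hB⟩ := hB0
  obtain ⟨c4, c0, hc4, hc0, hc01, hB2'⟩ := hB2
  obtain ⟨C, hC⟩ : ∃ C : ℝ, C = C1 + C2 + C3 + 1 := ⟨_, rfl⟩
  have hCC1 : C1 ≤ C := by linarith
  have hCC2 : C2 ≤ C := by linarith
  have hCC3 : C3 ≤ C := by linarith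
  have hC0 : 1 ≤ C := by linarith
  obtain ⟨D, hDdef⟩ : ∃ D : ℝ, D = 48 * C ^ 6 / c4 + 1 / c0 + 1 := ⟨_, rfl⟩
  have hD1 : 1 ≤ D := by
    have : 0 ≤ 48 * C ^ 6 / c4 := by positivity
    have : 0 ≤ 1 / c0 := by positivity
    linarith
  have hDc0 : 1 / c0 ≤ D := by
    have : 0 ≤ 48 * C ^ 6 / c4 := by positivity
    linarith
  have hDc4 : 48 * C ^ 6 ≤ c4 * D := by
    have h1 : 48 * C ^ 6 / c4 ≤ D := by
      have : 0 ≤ 1 / c0 := by positivity
      linarith
    rw [div_le_iff₀ hc4] at h1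
    linarith
  have hA1 : 1 ≤ D ^ 4 := one_le_pow₀ hD1
  have hD1s : 1 < D := by
    have h1 : 0 ≤ 48 * C ^ 6 / c4 := by positivity
    have h2 : 0 < 1 / c0 := by positivity
    linarith
  refine ⟨D ^ 4, c4 / 2 * D ^ 12, 1 / (2 * C * D ^ 3), hA1, by positivity, by positivity, ?_, ?_, ?_⟩
  · have h1 : 1 ≤ D ^ 3 := one_le_pow₀ hD1
    have h2 : 1 ≤ C * D ^ 3 := one_le_mul_of_one_le_of_one_le hC0 h1
    apply one_div_le_one_div_of_le (by norm_num)
    linarith
  · intro z q b _ hz hqz hbq hreal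
    have hq : 0 < q := Nat.pos_of_ne_zero (NeZero.ne q)
    have hq1 : 1 ≤ q := hq
    have hqz' : q ≤ z := by
      calc q = q ^ 1 := (pow_one q).symm
        _ ≤ q ^ 8 := Nat.pow_le_pow_right hq (by norm_num)
        _ ≤ z := hqz
    have hzR : (32 : ℝ) ≤ z := by exact_mod_cast hz
    set ℓ : ℝ := Real.log z with hℓ
    have hℓ1 : 1 ≤ ℓ := by
      rw [hℓ, Real.le_log_iff_exp_le (by linarith)]
      have := Real.exp_one_lt_d9
      linarith
    set s : ℝ := 1 / (D ^ 4 * ℓ) with hs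
    have hs0 : 0 < s := by positivity
    have hs1 : s ≤ 1 := by
      rw [hs, div_le_one (by positivity)]
      exact one_le_mul_of_one_le_of_one_le hA1 hℓ1
    have hsl : s * ℓ = 1 / D ^ 4 := by
      rw [hs]
      field_simp
    have hsl1 : s * ℓ ≤ 1 := by
      rw [hsl, div_le_one (by positivity)]
      exact hA1
    have hslc0 : s * ℓ ≤ c0 := by
      rw [hsl, div_le_iff₀ (by positivity)]
      rw [div_le_iff₀ hc0] at hDc0
      have h2 : D ≤ D ^ 4 := by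
        calc D = D ^ 1 := (pow_one D).symm
          _ ≤ D ^ 4 := pow_le_pow_right₀ hD1 (by norm_num)
      calc (1 : ℝ) ≤ D * c0 := hDc0
        _ ≤ D ^ 4 * c0 := mul_le_mul_of_nonneg_right h2 hc0.le
        _ = c0 * D ^ 4 := mul_comm _ _
    have hφ0 : (0 : ℝ) < q.totient := by exact_mod_cast Nat.totient_pos.mpr hq
    have hcard : (Fintype.card (ZMod q)ˣ : ℝ) = q.totient := by
      rw [ZMod.card_units_eq_totient]
    obtain ⟨hL, hL0, hDj, ⟨m, hm, hmP⟩, hBsum⟩ := hCLS z q s hz hqz' hs0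
    -- bounds
    have hcop : ∀ x : (ZMod q)ˣ, ((x : ZMod q).val).Coprime q := fun x =>
      ZMod.val_coe_unit_coprime x
    have hDiff : ∀ (j : ℕ), j ≤ 3 → ∀ x y : (ZMod q)ˣ,
        ‖((Aj z q (x : ZMod q).val j s : ℝ) : ℂ) - ((Aj z q (y : ZMod q).val j s : ℝ) : ℂ)‖ ≤
          C * ℓ ^ j / q.totient := by
      intro j hj x y
      rw [← Complex.ofReal_sub, Complex.norm_real, Real.norm_eq_abs]
      refine (hD z q _ _ j s hz hq1 hqz (hcop x) (hcop y) hj hs0 hs1).trans ?_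
      apply div_le_div_of_nonneg_right _ hφ0.le
      exact mul_le_mul_of_nonneg_right hCC1 (by positivity)
    have hA0b : ∀ x : (ZMod q)ˣ, Aj z q (x : ZMod q).val 0 s ≤ C * D ^ 4 / q.totient := by
      intro x
      refine (hA z q _ s hz hq1 hqz (hcop x) hs0 hsl1).trans ?_
      rw [hsl]
      rw [div_le_div_iff₀ (by positivity) hφ0]
      have : C * D ^ 4 * (q.totient * (1 / D ^ 4)) = C * q.totient := by
        field_simp
      rw [this]
      exact mul_le_mul_of_nonneg_right hCC2 hφ0.le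
    have hA0sum : ∑ x : (ZMod q)ˣ, Aj z q (x : ZMod q).val 0 s ≤ C * D ^ 4 := by
      refine (Finset.sum_le_sum fun x _ => hA0b x).trans (le_of_eq ?_)
      rw [Finset.sum_const, Finset.card_univ, nsmul_eq_mul, hcard]
      field_simp
    have hB0b : ∀ x : (ZMod q)ˣ, Bj z q (x : ZMod q).val 0 s ≤ C * D ^ 4 * ℓ / q.totient := by
      intro x
      refine (hB z q _ s hz hq1 hqz (hcop x) hs0 hsl1).trans ?_
      rw [hs, div_le_div_iff₀ (by positivity) hφ0]
      have : C * D ^ 4 * ℓ * (q.totient * (1 / (D ^ 4 * ℓ))) = C * q.totient := by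
        field_simp
      rw [this]
      exact mul_le_mul_of_nonneg_right hCC3 hφ0.le
    have hB0sum : ∑ x : (ZMod q)ˣ, ‖((Bj z q (x : ZMod q).val 0 s : ℝ) : ℂ)‖ ≤ C * D ^ 4 * ℓ := by
      have h1 : ∀ x : (ZMod q)ˣ, ‖((Bj z q (x : ZMod q).val 0 s : ℝ) : ℂ)‖ ≤
          C * D ^ 4 * ℓ / q.totient := by
        intro x
        rw [Complex.norm_real, Real.norm_of_nonneg (Bj_nonneg _ _ _ _ _ (fun n => by simp))]
        exact hB0b x
      refine (Finset.sum_le_sum fun x _ => h1 x).trans (le_of_eq ?_)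
      rw [Finset.sum_const, Finset.card_univ, nsmul_eq_mul, hcard]
      field_simp
    -- the trivial bound for `L0 1` and `L0 ψ`
    have hA0nn : ∀ x : (ZMod q)ˣ, 0 ≤ Aj z q (x : ZMod q).val 0 s := by
      intro x
      apply tsum_nonneg
      intro n
      unfold aj
      split_ifs
      · positivity
      · exact le_rfl
    have hL1 : ‖Lj z (1 : DirichletCharacter ℂ q) 0 s‖ ≤ 2 * C * D ^ 4 := by
      rw [hL0]
      have h1 : ‖∑ x : (ZMod q)ˣ, (1 : DirichletCharacter ℂ q) x *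
          ((Aj z q (x : ZMod q).val 0 s : ℝ) : ℂ)‖ ≤ C * D ^ 4 := by
        refine (norm_sum_le _ _).trans ?_
        refine le_trans (Finset.sum_le_sum fun x _ => ?_) hA0sum
        rw [norm_mul, Complex.norm_real, Real.norm_of_nonneg (hA0nn x)]
        exact mul_le_of_le_one_left (hA0nn x) (DirichletCharacter.norm_le_one _ _)
      have hCD : 1 ≤ C * D ^ 4 := one_le_mul_of_one_le_of_one_le hC0 hA1
      refine (norm_one_add_le' _ _ h1).trans ?_
      calc (1 : ℝ) + C * D ^ 4 ≤ C * D ^ 4 + C * D ^ 4 := add_le_add hCD le_rfl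
        _ = 2 * C * D ^ 4 := by ring
    have hLψ : ∀ ψ : DirichletCharacter ℂ q, ψ ≠ 1 → ‖Lj z ψ 0 s‖ ≤ 2 * C := by
      intro ψ hψ
      rw [hL0]
      have h1 : ∑ x : (ZMod q)ˣ, ψ x * ((Aj z q (x : ZMod q).val 0 s : ℝ) : ℂ) =
          ∑ x : (ZMod q)ˣ, ψ x * (((Aj z q (x : ZMod q).val 0 s : ℝ) : ℂ) -
            ((Aj z q (((1 : (ZMod q)ˣ)) : ZMod q).val 0 s : ℝ) : ℂ)) := by
        simp only [mul_sub]
        rw [Finset.sum_sub_distrib, ← Finset.sum_mul, sum_char_zero ψ hψ, zero_mul, sub_zero]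
      have h2 : ‖∑ x : (ZMod q)ˣ, ψ x * ((Aj z q (x : ZMod q).val 0 s : ℝ) : ℂ)‖ ≤ C := by
        rw [h1]
        refine (norm_sum_le _ _).trans ?_
        have h3 : ∀ x : (ZMod q)ˣ, ‖ψ x * (((Aj z q (x : ZMod q).val 0 s : ℝ) : ℂ) -
            ((Aj z q (((1 : (ZMod q)ˣ)) : ZMod q).val 0 s : ℝ) : ℂ))‖ ≤ C / q.totient := by
          intro x
          rw [norm_mul]
          have h4 := hDiff 0 (by norm_num) x 1
          rw [pow_zero, mul_one] at h4
          exact (mul_le_of_le_one_left (norm_nonneg _) (DirichletCharacter.norm_le_one _ _)).trans h4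
        refine (Finset.sum_le_sum fun x _ => h3 x).trans (le_of_eq ?_)
        rw [Finset.sum_const, Finset.card_univ, nsmul_eq_mul, hcard]
        field_simp
      refine (norm_one_add_le' _ _ h2).trans ?_
      linarith
    -- the lower bound
    obtain ⟨lam, hlam⟩ : ∃ lam : ℝ, lam = 1 / (2 * C * D ^ 3) := ⟨_, rfl⟩
    have hD3 : 1 ≤ D ^ 3 := one_le_pow₀ hD1
    have hlam0 : 0 < lam := by rw [hlam]; positivity
    have hlow : ∀ χ : DirichletCharacter ℂ q, χ ≠ 1 → lam ≤ ‖Lj z χ 0 s‖ := by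
      intro χ hχ
      by_cases h2 : χ ^ 2 = 1
      · rw [hlam]; exact hreal χ hχ h2
      · have h3 := (hEUL z q χ χ s hz hq hqz' hs0).1
        have h4 := hLψ (χ ^ 2) h2
        by_contra hcon
        push Not at hcon
        have h5 : ‖Lj z (1 : DirichletCharacter ℂ q) 0 s‖ ^ 3 ≤ (2 * C * D ^ 4) ^ 3 :=
          pow_le_pow_left₀ (norm_nonneg _) hL1 3
        have h6 : ‖Lj z χ 0 s‖ ^ 4 < lam ^ 4 := pow_lt_pow_left₀ hcon (norm_nonneg _) (by norm_num)
        have h7 : ‖Lj z (1 : DirichletCharacter ℂ q) 0 s‖ ^ 3 * ‖Lj z χ 0 s‖ ^ 4 *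
            ‖Lj z (χ ^ 2) 0 s‖ ≤ (2 * C * D ^ 4) ^ 3 * ‖Lj z χ 0 s‖ ^ 4 * (2 * C) := by
          apply mul_le_mul _ h4 (norm_nonneg _) (by positivity)
          exact mul_le_mul_of_nonneg_right h5 (by positivity)
        have h8 : (2 * C * D ^ 4) ^ 3 * ‖Lj z χ 0 s‖ ^ 4 * (2 * C) <
            (2 * C * D ^ 4) ^ 3 * lam ^ 4 * (2 * C) := by
          apply mul_lt_mul_of_pos_right _ (by positivity)
          exact mul_lt_mul_of_pos_left h6 (by positivity)
        have h9 : (2 * C * D ^ 4) ^ 3 * lam ^ 4 * (2 * C) = 1 := by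
          rw [hlam]
          field_simp
        linarith
    -- the unit of `b`
    set u : (ZMod q)ˣ := ZMod.unitOfCoprime b hbq with hu
    have huv : (u : ZMod q).val = b % q := by
      rw [hu, ZMod.coe_unitOfCoprime, ZMod.val_natCast]
    have key := hABS q (fun x => ((Aj z q (x : ZMod q).val 1 s : ℝ) : ℂ))
      (fun x => ((Aj z q (x : ZMod q).val 2 s : ℝ) : ℂ))
      (fun x => ((Aj z q (x : ZMod q).val 3 s : ℝ) : ℂ))
      (fun x => ((Bj z q (x : ZMod q).val 0 s : ℝ) : ℂ))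
      (fun x => ((Bj z q (x : ZMod q).val 2 s : ℝ) : ℂ)) m (fun χ => Lj z χ 0 s)
      (C * ℓ) (C * ℓ ^ 2) (C * ℓ ^ 3) (2 * C * D ^ 4) (C * D ^ 4 * ℓ) lam
      (by positivity) (by positivity) (by positivity) hlam0
      (fun x y => by
        have := hDiff 1 (by norm_num) x y
        rwa [pow_one] at this)
      (fun x y => hDiff 2 (by norm_num) x y)
      (fun x y => hDiff 3 (by norm_num) x y)
      (by
        refine hmP.trans ?_
        have hCD : 1 ≤ C * D ^ 4 := one_le_mul_of_one_le_of_one_le hC0 hA1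
        linarith)
      hB0sum
      (fun χ => by
        rw [← hm χ]
        exact (hALG z q χ s hz hs0).1)
      (fun χ => by
        rw [← hDj χ 0, ← hL χ 1 le_rfl]
        exact (hALG z q χ s hz hs0).2.1)
      (fun χ => by
        rw [← hDj χ 0, ← hDj χ 2, ← hL χ 3 (by norm_num), ← hL χ 2 (by norm_num)]
        exact (hALG z q χ s hz hs0).2.2)
      hlow u
    rw [huv, Bj_mod] at key
    have hsum : ∑ x : (ZMod q)ˣ, ((Bj z q (x : ZMod q).val 2 s : ℝ) : ℂ) =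
        ((Bj z 1 1 2 s : ℝ) : ℂ) := by
      rw [← hBsum 2]
      push_cast
      rfl
    rw [hsum] at key
    have e1 : (q.totient : ℂ) * ((Bj z q b 2 s : ℝ) : ℂ) - ((Bj z 1 1 2 s : ℝ) : ℂ) =
        (((q.totient : ℝ) * Bj z q b 2 s - Bj z 1 1 2 s : ℝ) : ℂ) := by
      push_cast
      rfl
    rw [e1, Complex.norm_real, Real.norm_eq_abs] at key
    have h10 := (abs_le.mp key).1
    have h11 := hB2' z s hz hs0 hslc0
    have h12 : c4 / s ^ 3 = c4 * D ^ 12 * ℓ ^ 3 := by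
      rw [hs]
      field_simp
    rw [h12] at h11
    have h13 : C * ℓ ^ 3 * (2 * C * D ^ 4) + 3 * (C * ℓ ^ 2) * (2 * C * D ^ 4) * (C * D ^ 4 * ℓ) +
        2 * (C * ℓ) ^ 3 * (2 * C * D ^ 4) ^ 2 / lam ≤ 24 * C ^ 6 * D ^ 11 * ℓ ^ 3 := by
      have e2 : 2 * (C * ℓ) ^ 3 * (2 * C * D ^ 4) ^ 2 / lam = 16 * C ^ 6 * D ^ 11 * ℓ ^ 3 := by
        rw [hlam]
        field_simp
        ring
      have e3 : C * ℓ ^ 3 * (2 * C * D ^ 4) ≤ 2 * C ^ 6 * D ^ 11 * ℓ ^ 3 := by
        have h1 : C ^ 2 ≤ C ^ 6 := pow_le_pow_right₀ hC0 (by norm_num)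
        have h2 : D ^ 4 ≤ D ^ 11 := pow_le_pow_right₀ hD1 (by norm_num)
        calc C * ℓ ^ 3 * (2 * C * D ^ 4) = 2 * (C ^ 2 * D ^ 4) * ℓ ^ 3 := by ring
          _ ≤ 2 * (C ^ 6 * D ^ 11) * ℓ ^ 3 := by gcongr
          _ = _ := by ring
      have e4 : 3 * (C * ℓ ^ 2) * (2 * C * D ^ 4) * (C * D ^ 4 * ℓ) ≤ 6 * C ^ 6 * D ^ 11 * ℓ ^ 3 := by
        have h1 : C ^ 3 ≤ C ^ 6 := pow_le_pow_right₀ hC0 (by norm_num)
        have h2 : D ^ 8 ≤ D ^ 11 := pow_le_pow_right₀ hD1 (by norm_num)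
        calc 3 * (C * ℓ ^ 2) * (2 * C * D ^ 4) * (C * D ^ 4 * ℓ) = 6 * (C ^ 3 * D ^ 8) * ℓ ^ 3 := by
              ring
          _ ≤ 6 * (C ^ 6 * D ^ 11) * ℓ ^ 3 := by gcongr
          _ = _ := by ring
      rw [e2]
      linarith
    have h14 : 24 * C ^ 6 * D ^ 11 * ℓ ^ 3 ≤ c4 / 2 * D ^ 12 * ℓ ^ 3 := by
      have h15 : 24 * C ^ 6 * D ^ 11 ≤ c4 / 2 * D ^ 12 := by
        have h16 : 0 ≤ D ^ 11 := by positivity
        have h17 : 24 * C ^ 6 ≤ c4 / 2 * D := by linarith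
        calc 24 * C ^ 6 * D ^ 11 ≤ c4 / 2 * D * D ^ 11 := mul_le_mul_of_nonneg_right h17 h16
          _ = _ := by ring
      exact mul_le_mul_of_nonneg_right h15 (by positivity)
    have h18 : c4 / 2 * D ^ 12 * ℓ ^ 3 ≤ (q.totient : ℝ) * Bj z q b 2 s := by
      linarith
    rw [div_le_iff₀ hφ0]
    linarith

  · intro z q _ hz hqz χ ψ hχ hχ2 hψ hψ2 hne hl1 hl2
    have hq : 0 < q := Nat.pos_of_ne_zero (NeZero.ne q)
    have hq1 : 1 ≤ q := hq
    have hqz' : q ≤ z := by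
      calc q = q ^ 1 := (pow_one q).symm
        _ ≤ q ^ 8 := Nat.pow_le_pow_right hq (by norm_num)
        _ ≤ z := hqz
    have hzR : (32 : ℝ) ≤ z := by exact_mod_cast hz
    set ℓ : ℝ := Real.log z with hℓ
    have hℓ1 : 1 ≤ ℓ := by
      rw [hℓ, Real.le_log_iff_exp_le (by linarith)]
      have := Real.exp_one_lt_d9
      linarith
    set s : ℝ := 1 / (D ^ 4 * ℓ) with hs
    have hs0 : 0 < s := by positivity
    have hs1 : s ≤ 1 := by
      rw [hs, div_le_one (by positivity)]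
      exact one_le_mul_of_one_le_of_one_le hA1 hℓ1
    have hsl : s * ℓ = 1 / D ^ 4 := by
      rw [hs]
      field_simp
    have hsl1 : s * ℓ ≤ 1 := by
      rw [hsl, div_le_one (by positivity)]
      exact hA1
    have hslc0 : s * ℓ ≤ c0 := by
      rw [hsl, div_le_iff₀ (by positivity)]
      rw [div_le_iff₀ hc0] at hDc0
      have h2 : D ≤ D ^ 4 := by
        calc D = D ^ 1 := (pow_one D).symm
          _ ≤ D ^ 4 := pow_le_pow_right₀ hD1 (by norm_num)
      calc (1 : ℝ) ≤ D * c0 := hDc0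
        _ ≤ D ^ 4 * c0 := mul_le_mul_of_nonneg_right h2 hc0.le
        _ = c0 * D ^ 4 := mul_comm _ _
    have hφ0 : (0 : ℝ) < q.totient := by exact_mod_cast Nat.totient_pos.mpr hq
    have hcard : (Fintype.card (ZMod q)ˣ : ℝ) = q.totient := by
      rw [ZMod.card_units_eq_totient]
    obtain ⟨hL, hL0, hDj, ⟨m, hm, hmP⟩, hBsum⟩ := hCLS z q s hz hqz' hs0
    -- bounds
    have hcop : ∀ x : (ZMod q)ˣ, ((x : ZMod q).val).Coprime q := fun x =>
      ZMod.val_coe_unit_coprime x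
    have hDiff : ∀ (j : ℕ), j ≤ 3 → ∀ x y : (ZMod q)ˣ,
        ‖((Aj z q (x : ZMod q).val j s : ℝ) : ℂ) - ((Aj z q (y : ZMod q).val j s : ℝ) : ℂ)‖ ≤
          C * ℓ ^ j / q.totient := by
      intro j hj x y
      rw [← Complex.ofReal_sub, Complex.norm_real, Real.norm_eq_abs]
      refine (hD z q _ _ j s hz hq1 hqz (hcop x) (hcop y) hj hs0 hs1).trans ?_
      apply div_le_div_of_nonneg_right _ hφ0.le
      exact mul_le_mul_of_nonneg_right hCC1 (by positivity)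
    have hA0b : ∀ x : (ZMod q)ˣ, Aj z q (x : ZMod q).val 0 s ≤ C * D ^ 4 / q.totient := by
      intro x
      refine (hA z q _ s hz hq1 hqz (hcop x) hs0 hsl1).trans ?_
      rw [hsl]
      rw [div_le_div_iff₀ (by positivity) hφ0]
      have : C * D ^ 4 * (q.totient * (1 / D ^ 4)) = C * q.totient := by
        field_simp
      rw [this]
      exact mul_le_mul_of_nonneg_right hCC2 hφ0.le
    have hA0sum : ∑ x : (ZMod q)ˣ, Aj z q (x : ZMod q).val 0 s ≤ C * D ^ 4 := by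
      refine (Finset.sum_le_sum fun x _ => hA0b x).trans (le_of_eq ?_)
      rw [Finset.sum_const, Finset.card_univ, nsmul_eq_mul, hcard]
      field_simp
    have hB0b : ∀ x : (ZMod q)ˣ, Bj z q (x : ZMod q).val 0 s ≤ C * D ^ 4 * ℓ / q.totient := by
      intro x
      refine (hB z q _ s hz hq1 hqz (hcop x) hs0 hsl1).trans ?_
      rw [hs, div_le_div_iff₀ (by positivity) hφ0]
      have : C * D ^ 4 * ℓ * (q.totient * (1 / (D ^ 4 * ℓ))) = C * q.totient := by
        field_simp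
      rw [this]
      exact mul_le_mul_of_nonneg_right hCC3 hφ0.le
    have hB0sum : ∑ x : (ZMod q)ˣ, ‖((Bj z q (x : ZMod q).val 0 s : ℝ) : ℂ)‖ ≤ C * D ^ 4 * ℓ := by
      have h1 : ∀ x : (ZMod q)ˣ, ‖((Bj z q (x : ZMod q).val 0 s : ℝ) : ℂ)‖ ≤
          C * D ^ 4 * ℓ / q.totient := by
        intro x
        rw [Complex.norm_real, Real.norm_of_nonneg (Bj_nonneg _ _ _ _ _ (fun n => by simp))]
        exact hB0b x
      refine (Finset.sum_le_sum fun x _ => h1 x).trans (le_of_eq ?_)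
      rw [Finset.sum_const, Finset.card_univ, nsmul_eq_mul, hcard]
      field_simp
    -- the trivial bound for `L0 1` and `L0 ψ`
    have hA0nn : ∀ x : (ZMod q)ˣ, 0 ≤ Aj z q (x : ZMod q).val 0 s := by
      intro x
      apply tsum_nonneg
      intro n
      unfold aj
      split_ifs
      · positivity
      · exact le_rfl
    have hL1 : ‖Lj z (1 : DirichletCharacter ℂ q) 0 s‖ ≤ 2 * C * D ^ 4 := by
      rw [hL0]
      have h1 : ‖∑ x : (ZMod q)ˣ, (1 : DirichletCharacter ℂ q) x *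
          ((Aj z q (x : ZMod q).val 0 s : ℝ) : ℂ)‖ ≤ C * D ^ 4 := by
        refine (norm_sum_le _ _).trans ?_
        refine le_trans (Finset.sum_le_sum fun x _ => ?_) hA0sum
        rw [norm_mul, Complex.norm_real, Real.norm_of_nonneg (hA0nn x)]
        exact mul_le_of_le_one_left (hA0nn x) (DirichletCharacter.norm_le_one _ _)
      have hCD : 1 ≤ C * D ^ 4 := one_le_mul_of_one_le_of_one_le hC0 hA1
      refine (norm_one_add_le' _ _ h1).trans ?_
      calc (1 : ℝ) + C * D ^ 4 ≤ C * D ^ 4 + C * D ^ 4 := add_le_add hCD le_rfl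
        _ = 2 * C * D ^ 4 := by ring
    have hLψ : ∀ ψ : DirichletCharacter ℂ q, ψ ≠ 1 → ‖Lj z ψ 0 s‖ ≤ 2 * C := by
      intro ψ hψ
      rw [hL0]
      have h1 : ∑ x : (ZMod q)ˣ, ψ x * ((Aj z q (x : ZMod q).val 0 s : ℝ) : ℂ) =
          ∑ x : (ZMod q)ˣ, ψ x * (((Aj z q (x : ZMod q).val 0 s : ℝ) : ℂ) -
            ((Aj z q (((1 : (ZMod q)ˣ)) : ZMod q).val 0 s : ℝ) : ℂ)) := by
        simp only [mul_sub]
        rw [Finset.sum_sub_distrib, ← Finset.sum_mul, sum_char_zero ψ hψ, zero_mul, sub_zero]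
      have h2 : ‖∑ x : (ZMod q)ˣ, ψ x * ((Aj z q (x : ZMod q).val 0 s : ℝ) : ℂ)‖ ≤ C := by
        rw [h1]
        refine (norm_sum_le _ _).trans ?_
        have h3 : ∀ x : (ZMod q)ˣ, ‖ψ x * (((Aj z q (x : ZMod q).val 0 s : ℝ) : ℂ) -
            ((Aj z q (((1 : (ZMod q)ˣ)) : ZMod q).val 0 s : ℝ) : ℂ))‖ ≤ C / q.totient := by
          intro x
          rw [norm_mul]
          have h4 := hDiff 0 (by norm_num) x 1
          rw [pow_zero, mul_one] at h4
          exact (mul_le_of_le_one_left (norm_nonneg _) (DirichletCharacter.norm_le_one _ _)).trans h4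
        refine (Finset.sum_le_sum fun x _ => h3 x).trans (le_of_eq ?_)
        rw [Finset.sum_const, Finset.card_univ, nsmul_eq_mul, hcard]
        field_simp
      refine (norm_one_add_le' _ _ h2).trans ?_
      linarith

    have h3 := (hEUL z q χ ψ s hz hq hqz' hs0).2.2 hχ2 hψ2
    have hne2 : χ * ψ ≠ 1 := by
      intro h
      apply hne
      have h4 : χ * ψ * ψ = ψ := by rw [h, one_mul]
      rw [mul_assoc, ← pow_two, hψ2, mul_one] at h4
      exact h4
    have h4 := hLψ (χ * ψ) hne2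
    have h5 : ‖Lj z (1 : DirichletCharacter ℂ q) 0 s‖ * ‖Lj z χ 0 s‖ * ‖Lj z ψ 0 s‖ *
        ‖Lj z (χ * ψ) 0 s‖ ≤ (2 * C * D ^ 4) * (1 / (2 * C * D ^ 3)) * (1 / (2 * C * D ^ 3)) * (2 * C) := by
      apply mul_le_mul _ h4 (norm_nonneg _) (by positivity)
      apply mul_le_mul _ hl2.le (norm_nonneg _) (by positivity)
      apply mul_le_mul hL1 hl1.le (norm_nonneg _) (by positivity)
    have h6 : (2 * C * D ^ 4) * (1 / (2 * C * D ^ 3)) * (1 / (2 * C * D ^ 3)) * (2 * C) = 1 / D ^ 2 := by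
      field_simp
    have h7 : 1 / D ^ 2 < 1 := by
      rw [div_lt_one (by positivity)]
      nlinarith
    linarith

end Pool.Agent.TH621.RQ
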