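import Pool.Agent.TH621.RQ.LinY
import Pool.Agent.TH909.PrimesX
import Pool.Agent.H262R3.Lk.SWQ

set_option autoImplicit false

/-!
# Primes in progressions away from one exceptional modulus, which is large
-/

open Finset

namespace Pool.Agent.TH621.RQ

open Pool.Agent.H262R3.Lk Pool.Agent.W69.MH
open Pool.Agent.H318R2.Cr (Rgh V)
open Pool.Agent.TH909 (SP tail_true b0_true Lj_changeLevel)

theorem liny_true : St_LINY := by
  have hSUM := Pool.Agent.W933.MHSum.sum_
  have hFL := Pool.Agent.W333.MH.fl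
  have hDIFF := Pool.Agent.W505.MH.diff hFL hSUM
  have hA0 := Pool.Agent.W505.MH.a0 hFL hSUM
  have hCLS := Pool.Agent.W193.MH.Cls.cls hSUM
  have hB0 := Pool.Agent.H262R3.Lk.b0 Pool.Agent.W505.MH.bt hSUM
  have hB2 := Pool.Agent.W440.MH.b2 hSUM
  have hALG := Pool.Agent.H262R3.Lk.alg hSUM
  exact linY hSUM hDIFF hA0 hB0 hB2 hALG Pool.Agent.W215.MH.eul hCLS Pool.Agent.W701.MH.abs_

/-- **Primes in progressions with at most one exceptional modulus, exceeding any power of `log z`.** -/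
theorem primesY : ∃ (K : ℕ) (c : ℝ), 1 ≤ K ∧ 0 < c ∧ ∀ B : ℕ, ∃ z0 : ℕ, ∀ z : ℕ, z0 ≤ z →
    ∃ f : ℕ, (Real.log z) ^ B < f ∧ ∀ q b : ℕ, 1 ≤ q → q ^ 16 ≤ z → b.Coprime q → ¬ f ∣ q →
      c / (q.totient : ℝ) ≤ SP K z q b := by
  obtain ⟨A, c, lam, hA, hc, hlam, hlam2, hlow, hrep⟩ := liny_true
  obtain ⟨K, z2, hK, htail⟩ := tail_true A (c / 2) hA (by positivity)
  have hK0 : (0 : ℝ) < (K : ℝ) := by exact_mod_cast hK
  refine ⟨K, c / (2 * (K : ℝ) ^ 3), hK, by positivity, fun B => ?_⟩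
  obtain ⟨z3, hswq⟩ := Pool.Agent.H262R3.Lk.swq B
  refine ⟨max z3 (max z2 32), ?_⟩
  intro z hz
  have hzz3 : z3 ≤ z := le_trans (le_max_left _ _) hz
  have hz2 : z2 ≤ z := le_trans (le_max_left _ _) (le_trans (le_max_right _ _) hz)
  have hz3 : 32 ≤ z := le_trans (le_max_right _ _) (le_trans (le_max_right _ _) hz)
  have hlog : (1 : ℝ) ≤ Real.log z := by
    rw [Real.le_log_iff_exp_le (by exact_mod_cast (by omega : 0 < z))]
    have h5 : Real.exp 1 < 2.7182818286 := Real.exp_one_lt_d9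
    have h6 : (32 : ℝ) ≤ (z : ℝ) := by exact_mod_cast hz3
    linarith
  have hAlog : (1 : ℝ) ≤ A * Real.log z := by nlinarith
  have hs0 : (0 : ℝ) < 1 / (A * Real.log z) := by positivity
  have hs1 : 1 / (A * Real.log z) ≤ (1 : ℝ) := by
    rw [div_le_one (by linarith)]
    exact hAlog
  set s : ℝ := 1 / (A * Real.log z) with hs
  -- the lower bound for a modulus without exceptional character
  have hgood : ∀ (q b : ℕ) [NeZero q], q ^ 8 ≤ z → b.Coprime q →
      (∀ χ : DirichletCharacter ℂ q, χ ≠ 1 → χ ^ 2 = 1 → lam ≤ ‖Lj z χ 0 s‖) →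
      c / (2 * (K : ℝ) ^ 3) / (q.totient : ℝ) ≤ SP K z q b := by
    intro q b _ hq hb hχ
    have hqpos : 0 < q := Nat.pos_of_ne_zero (NeZero.ne q)
    have h1 := hlow z q b hz3 hq hb hχ
    have hup := htail z q b hz2 hqpos hq hb
    have hphi : (0 : ℝ) < (q.totient : ℝ) := by
      exact_mod_cast Nat.totient_pos.2 hqpos
    have hL3 : (0 : ℝ) < (Real.log z) ^ 3 := by positivity
    change c * (Real.log z) ^ 3 / (q.totient : ℝ) ≤ _ at h1
    unfold SP
    set S : ℝ := ∑ p ∈ (Ioc z (z ^ K)).filter (fun p => p.Prime ∧ p ≡ b [MOD q]), (1 : ℝ) / p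
      with hS
    have h5 : c * (Real.log z) ^ 3 / (q.totient : ℝ) ≤
        c / 2 * (Real.log z) ^ 3 / (q.totient : ℝ) + (K : ℝ) ^ 3 * (Real.log z) ^ 3 * S :=
      le_trans h1 hup
    have h6 : (c / 2 / (q.totient : ℝ)) * (Real.log z) ^ 3 ≤
        ((K : ℝ) ^ 3 * S) * (Real.log z) ^ 3 := by
      have e1 : c * (Real.log z) ^ 3 / (q.totient : ℝ) =
          2 * ((c / 2 / (q.totient : ℝ)) * (Real.log z) ^ 3) := by
        field_simp
      have e2 : c / 2 * (Real.log z) ^ 3 / (q.totient : ℝ) =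
          (c / 2 / (q.totient : ℝ)) * (Real.log z) ^ 3 := by
        field_simp
      rw [e1, e2] at h5
      nlinarith
    have h7 : c / 2 / (q.totient : ℝ) ≤ (K : ℝ) ^ 3 * S :=
      le_of_mul_le_mul_right h6 hL3
    have hK3 : (0 : ℝ) < (K : ℝ) ^ 3 := by positivity
    have e3 : c / (2 * (K : ℝ) ^ 3) / (q.totient : ℝ) =
        (c / 2 / (q.totient : ℝ)) / (K : ℝ) ^ 3 := by
      field_simp
    rw [e3, div_le_iff₀ hK3]
    linarith
  by_cases hex : ∃ (q0 : ℕ) (χ0 : DirichletCharacter ℂ q0), 1 ≤ q0 ∧ q0 ^ 16 ≤ z ∧ χ0 ≠ 1 ∧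
      χ0 ^ 2 = 1 ∧ ‖Lj z χ0 0 s‖ < lam
  · obtain ⟨q0, χ0, hq0, hq0z, hχ1, hχ2, hL0⟩ := hex
    have : NeZero q0 := ⟨by omega⟩
    have hq0z' : q0 ≤ z := (Nat.le_self_pow (by norm_num) _).trans hq0z
    refine ⟨χ0.conductor, ?_, ?_⟩
    · -- the conductor is large
      by_contra hcon
      push Not at hcon
      have hf1 : 1 < χ0.conductor := by
        have h1 : χ0.conductor ≠ 1 := fun h => hχ1 (χ0.eq_one_iff_conductor_eq_one.2 h)
        have h2 := Nat.pos_of_ne_zero χ0.conductor_ne_zero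
        omega
      have h1 := hswq z hzz3 χ0.conductor hf1 hcon χ0.primitiveCharacter
        χ0.primitiveCharacter_isPrimitive s hs0 hs1
      have h2 := Lj_changeLevel (z := z) (by omega : 0 < q0) hq0z' χ0.conductor_dvd_level
        χ0.primitiveCharacter 0 s
      have h3 : DirichletCharacter.changeLevel χ0.conductor_dvd_level χ0.primitiveCharacter = χ0 :=
        χ0.changeLevel_primitiveCharacter
      rw [h3] at h2
      rw [← h2] at h1
      linarith
    intro q b hq hqz hb hfq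
    have : NeZero q := ⟨by omega⟩
    have hq8 : q ^ 8 ≤ z := (Nat.pow_le_pow_right hq (by norm_num)).trans hqz
    apply hgood q b hq8 hb
    intro χ hχ hχ'
    by_contra hcon
    push Not at hcon
    apply hfq
    have hQ0 : 0 < Nat.lcm q0 q := Nat.lcm_pos (by omega) (by omega)
    have : NeZero (Nat.lcm q0 q) := ⟨hQ0.ne'⟩
    have hQle : Nat.lcm q0 q ≤ q0 * q := Nat.le_of_dvd (by positivity) (Nat.lcm_dvd_mul _ _)
    have hQ8 : (Nat.lcm q0 q) ^ 8 ≤ z := by
      refine (Nat.pow_le_pow_left hQle 8).trans ?_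
      have h1 : ((q0 * q) ^ 8) ^ 2 ≤ z ^ 2 := by
        calc ((q0 * q) ^ 8) ^ 2 = q0 ^ 16 * q ^ 16 := by ring
          _ ≤ z * z := Nat.mul_le_mul hq0z hqz
          _ = z ^ 2 := by ring
      exact (Nat.pow_le_pow_iff_left (by norm_num)).1 h1
    have hQz : Nat.lcm q0 q ≤ z := (Nat.le_self_pow (by norm_num) _).trans hQ8
    have hd0 : q0 ∣ Nat.lcm q0 q := Nat.dvd_lcm_left _ _
    have hd1 : q ∣ Nat.lcm q0 q := Nat.dvd_lcm_right _ _
    have e0 := Lj_changeLevel hQ0 hQz hd0 χ0 0 s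
    have e1 := Lj_changeLevel hQ0 hQz hd1 χ 0 s
    by_cases heq : DirichletCharacter.changeLevel hd0 χ0 = DirichletCharacter.changeLevel hd1 χ
    · rw [← DirichletCharacter.conductor_changeLevel χ0 hd0, heq,
        DirichletCharacter.conductor_changeLevel]
      exact χ.conductor_dvd_level
    · exfalso
      refine hrep z (Nat.lcm q0 q) hz3 hQ8 (DirichletCharacter.changeLevel hd0 χ0)
        (DirichletCharacter.changeLevel hd1 χ) ?_ ?_ ?_ ?_ heq ?_ ?_
      · rw [Ne, DirichletCharacter.changeLevel_eq_one_iff]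
        exact hχ1
      · rw [← map_pow, hχ2, map_one]
      · rw [Ne, DirichletCharacter.changeLevel_eq_one_iff]
        exact hχ
      · rw [← map_pow, hχ', map_one]
      · rw [← hs, e0]; exact hL0
      · rw [← hs, e1]; exact hcon
  · push Not at hex
    refine ⟨⌊(Real.log z) ^ B⌋₊ + 1, ?_, ?_⟩
    · push_cast
      exact Nat.lt_floor_add_one _
    intro q b hq hqz hb _
    have : NeZero q := ⟨by omega⟩
    have hq8 : q ^ 8 ≤ z := (Nat.pow_le_pow_right hq (by norm_num)).trans hqz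
    exact hgood q b hq8 hb (fun χ h1 h2 => hex q χ hq hqz h1 h2)

end Pool.Agent.TH621.RQ
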