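import Pool.Agent.TH621.RQ.CoverP
import Pool.Agent.TH621.RQ.PrimesY
import Pool.Agent.TH621.RQ.Exc

set_option autoImplicit false

/-! # Long prime-free intervals around all polynomial values at primes -/

namespace Pool.Agent.TH621.RQ

open Finset Polynomial Filter
open Pool.Agent.TH621.RP
open Pool.Agent.TH909 (SP)

/-- largeness -/
theorem ev_main (K A : ℕ) (hK : 1 ≤ K) (D B c₀ : ℝ) (hD : 1 ≤ D) (hc₀ : 0 < c₀) :
    ∃ L₀ : ℝ, ∀ L : ℝ, L₀ ≤ L →
      2 ≤ L / (2 * K) ∧ D ≤ L / (2 * K) ∧ 16 * (Real.log D + L / (2 * K) / 64) ≤ L / (2 * K) ∧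
      D * (B + 2 * L ^ A + 2 * L ^ 2) ≤ Real.exp (L / (2 * K)) ∧
      L / (2 * K) / 2 ≤ Real.log c₀ + L / (2 * K) - Real.log D - L / (2 * K) / 64 := by
  have hK0 : (0 : ℝ) < K := by exact_mod_cast hK
  have hD0 : 0 < D := by linarith
  have h1 : ∀ n : ℕ, ∀ᶠ L : ℝ in atTop, L ^ n ≤ (1 / (8 * D)) * Real.exp (L / (2 * K)) := by
    intro n
    have e1 := (isLittleO_pow_exp_pos_mul_atTop (k := n)
      (show (0 : ℝ) < 1 / (2 * K) by positivity)).def (show (0 : ℝ) < 1 / (8 * D) by positivity)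
    filter_upwards [e1, eventually_ge_atTop (0 : ℝ)] with L hL hL2
    rw [Real.norm_eq_abs, Real.norm_eq_abs, abs_of_nonneg (by positivity),
      abs_of_pos (Real.exp_pos _)] at hL
    have e2 : 1 / (2 * (K : ℝ)) * L = L / (2 * K) := by ring
    rwa [e2] at hL
  have hu : Tendsto (fun L : ℝ => L / (2 * K)) atTop atTop :=
    tendsto_id.atTop_div_const (by positivity)
  have h2 : ∀ᶠ L : ℝ in atTop, B ≤ (1 / (4 * D)) * Real.exp (L / (2 * K)) := by
    filter_upwards [hu.eventually_ge_atTop (4 * D * B)] with L hL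
    have := Real.add_one_le_exp (L / (2 * K))
    have h3 : 4 * D * B ≤ Real.exp (L / (2 * K)) := by linarith
    calc B = (1 / (4 * D)) * (4 * D * B) := by field_simp
      _ ≤ _ := by gcongr
  obtain ⟨L₁, h⟩ := eventually_atTop.1 ((h1 A).and ((h1 2).and (h2.and
    ((hu.eventually_ge_atTop 2).and ((hu.eventually_ge_atTop D).and
    ((hu.eventually_ge_atTop (22 * Real.log D)).and
    (hu.eventually_ge_atTop (4 * (Real.log D - Real.log c₀)))))))))
  refine ⟨L₁, fun L hL => ?_⟩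
  obtain ⟨a1, a2, a3, a4, a5, a6, a7⟩ := h L hL
  have hlD : 0 ≤ Real.log D := Real.log_nonneg hD
  refine ⟨a4, a5, by linarith, ?_, by linarith⟩
  calc D * (B + 2 * L ^ A + 2 * L ^ 2) ≤
      D * ((1 / (4 * D)) * Real.exp (L / (2 * K)) + 2 * ((1 / (8 * D)) * Real.exp (L / (2 * K))) +
        2 * ((1 / (8 * D)) * Real.exp (L / (2 * K)))) := by gcongr
    _ = (3 / 4) * Real.exp (L / (2 * K)) := by
        field_simp
        ring
    _ ≤ Real.exp (L / (2 * K)) := by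
        have := Real.exp_pos (L / (2 * K))
        linarith

theorem mainP (𝓖 : Finset ℤ[X]) (h𝓖 : ∀ f ∈ 𝓖, 1 ≤ f.natDegree) (D E : ℕ) (hD : 1 ≤ D)
    (hGE : ∀ f ∈ 𝓖, f.natDegree ≤ E) :
    ∃ c δ : ℝ, 0 < c ∧ 0 < δ ∧ ∃ X₀ : ℝ, ∀ X : ℝ, X₀ ≤ X → ∃ S : Finset ℕ,
      X ^ δ ≤ (S.card : ℝ) ∧ ∀ n ∈ S, n.Prime ∧ (n : ℝ) ≤ X ∧ ∃ y : ℤ, (n : ℤ) = 1 + D * y ∧
        ∀ f ∈ 𝓖, ∀ m : ℤ, |(m : ℝ) - (f.eval y : ℤ)| ≤ c * rankin X →
          m ≠ n → m ≠ -(n : ℤ) → ¬ Prime m := by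
  obtain ⟨C, A, hC, x₀, hcov⟩ := coverP 𝓖 h𝓖 D E hD hGE
  obtain ⟨K, c₀, hK, hc₀, hprim⟩ := primesY
  obtain ⟨z0, hprim⟩ := hprim 4
  obtain ⟨c', hc', Y₁, hana⟩ := anaR (x₀ := max x₀ (Real.exp D)) hC
  have hK0 : (0 : ℝ) < K := by exact_mod_cast hK
  have hD1 : (1 : ℝ) ≤ D := by exact_mod_cast hD
  have hD0 : (0 : ℝ) < D := by linarith
  set A₀ : ℕ := 𝓖.sup (fun f => ∑ i ∈ f.support, (f.coeff i).natAbs) + 1 with hA₀
  have hfA : ∀ f ∈ 𝓖, ∀ i, |f.coeff i| ≤ A₀ := by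
    intro f hf i
    have h1 := le_sup (f := fun f : ℤ[X] => ∑ i ∈ f.support, (f.coeff i).natAbs) hf
    have h2 : (f.coeff i).natAbs ≤ ∑ i ∈ f.support, (f.coeff i).natAbs := by
      by_cases hi : i ∈ f.support
      · exact single_le_sum (f := fun i => (f.coeff i).natAbs) (fun _ _ => Nat.zero_le _) hi
      · rw [notMem_support_iff] at hi
        rw [hi]; simp
    have h3 : (f.coeff i).natAbs ≤ A₀ := by omega
    rw [Int.abs_eq_natAbs]
    exact_mod_cast h3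
  obtain ⟨B, hB⟩ : ∃ B : ℝ, B = 2 * A₀ + 2 * (E * A₀) + 2 := ⟨_, rfl⟩
  obtain ⟨L₁, hend⟩ := ev_main K A hK D B c₀ hD1 hc₀
  obtain ⟨θ, hθ⟩ : ∃ θ : ℝ, θ = 1 / (64 * K) := ⟨_, rfl⟩
  have hθ0 : 0 < θ := by rw [hθ]; positivity
  have hK1 : (1 : ℝ) ≤ K := by exact_mod_cast hK
  have hθ1 : θ ≤ 1 := by
    rw [hθ, div_le_one (by positivity)]
    linarith
  obtain ⟨X₂, hrk⟩ := rankin_pow θ hθ0 hθ1 0
  refine ⟨c' * (θ / 4), 1 / (4 * K), by positivity, by positivity,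
    max (max X₂ (Real.exp L₁)) (max (Real.exp (max 0 (Real.log (max 1 Y₁)) / θ))
      (Real.exp (2 * K * (z0 + 1)))), fun X hX => ?_⟩
  have hX2 : X₂ ≤ X := (le_max_left _ _).trans ((le_max_left _ _).trans hX)
  have hX3 : Real.exp L₁ ≤ X := (le_max_right _ _).trans ((le_max_left _ _).trans hX)
  have hX4 : Real.exp (max 0 (Real.log (max 1 Y₁)) / θ) ≤ X :=
    (le_max_left _ _).trans ((le_max_right _ _).trans hX)
  have hX5 : Real.exp (2 * K * (z0 + 1)) ≤ X :=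
    (le_max_right _ _).trans ((le_max_right _ _).trans hX)
  have hX0 : 0 < X := (Real.exp_pos _).trans_le hX3
  obtain ⟨L, hL⟩ : ∃ L : ℝ, L = Real.log X := ⟨_, rfl⟩
  have hXe : X = Real.exp L := by rw [hL, Real.exp_log hX0]
  have hLL : L₁ ≤ L := by rw [hL, Real.le_log_iff_exp_le hX0]; exact hX3
  obtain ⟨u, hu⟩ : ∃ u : ℝ, u = L / (2 * K) := ⟨_, rfl⟩
  have hLu : L = 2 * K * u := by rw [hu]; field_simp
  obtain ⟨b1, b2, b3, b4, b5⟩ := hend L hLL
  rw [← hu] at b1 b2 b3 b4 b5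
  obtain ⟨-, r2, r3⟩ := hrk X hX2
  -- the small scale
  obtain ⟨Y, hY⟩ : ∃ Y : ℝ, Y = X ^ θ := ⟨_, rfl⟩
  have hYlog : Real.log Y = u / 32 := by
    rw [hY, Real.log_rpow hX0, ← hL, hθ, hLu]
    field_simp
    ring
  have hY0 : 0 < Y := by rw [hY]; positivity
  have hY1 : Y₁ ≤ Y := by
    have h1 : max 0 (Real.log (max 1 Y₁)) / θ ≤ L := by
      rw [hL, Real.le_log_iff_exp_le hX0]
      exact hX4
    rw [div_le_iff₀ hθ0] at h1
    have h2 : Real.log (max 1 Y₁) ≤ L * θ := (le_max_right _ _).trans h1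
    have h3 : Real.log Y = L * θ := by rw [hY, Real.log_rpow hX0, ← hL, mul_comm]
    rw [← h3, Real.log_le_log_iff (lt_of_lt_of_le one_pos (le_max_left _ _)) hY0] at h2
    exact (le_max_right _ _).trans h2
  obtain ⟨x, hx⟩ : ∃ x : ℝ, x = Real.log Y / 10 := ⟨_, rfl⟩
  obtain ⟨F, hF⟩ : ∃ F : ℝ, F = c' * rankin Y := ⟨_, rfl⟩
  obtain ⟨a1, -, a3, a4, a5, a6, a7, a8, a9, a10, a11⟩ := hana Y hY1 x F hx hF ⌊F⌋₊ rfl
  have hxu : x = u / 320 := by rw [hx, hYlog]; ring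
  have ha5 : x₀ ≤ x := (le_max_left _ _).trans a5
  have hDx : (D : ℝ) ≤ Real.log x := by
    rw [Real.le_log_iff_exp_le (by linarith)]
    exact (le_max_right _ _).trans a5
  have hu0 : 0 < u := by linarith
  -- the scale of the primes
  obtain ⟨z, hz⟩ : ∃ z : ℕ, z = ⌊Real.exp (2 * u)⌋₊ := ⟨_, rfl⟩
  have hzle : (z : ℝ) ≤ Real.exp (2 * u) := by rw [hz]; exact Nat.floor_le (Real.exp_pos _).le
  have hzge : Real.exp u ≤ z := by
    have h1 : Real.exp (2 * u) < z + 1 := by rw [hz]; exact Nat.lt_floor_add_one _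
    have h2 : Real.exp (2 * u) = Real.exp u * Real.exp u := by rw [← Real.exp_add]; congr 1; ring
    have h3 := Real.add_one_le_exp u
    nlinarith
  have hzR0 : (0 : ℝ) < z := (Real.exp_pos u).trans_le hzge
  have hz00 : z0 ≤ z := by
    have h1 : 2 * K * ((z0 : ℝ) + 1) ≤ L := by
      rw [hL, Real.le_log_iff_exp_le hX0]
      exact hX5
    rw [hLu] at h1
    have h2 : (z0 : ℝ) + 1 ≤ u := le_of_mul_le_mul_left h1 (by positivity)
    have h3 := Real.add_one_le_exp u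
    have h4 : (z0 : ℝ) ≤ z := by linarith
    exact_mod_cast h4
  have hzK : ((z ^ K : ℕ) : ℝ) ≤ X := by
    push_cast
    calc (z : ℝ) ^ K ≤ (Real.exp (2 * u)) ^ K := pow_le_pow_left₀ hzR0.le hzle K
      _ = X := by
        rw [← Real.exp_nat_mul, hXe, hLu]
        congr 1
        ring
  have hlogz : u ≤ Real.log z := by
    rw [Real.le_log_iff_exp_le hzR0]
    exact hzge
  obtain ⟨f, hf1, hf2⟩ := hprim z hz00
  -- the exceptional prime
  have hexc : (D : ℝ) * 4 ^ ⌊2 * Real.log x⌋₊ < f := by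
    refine lt_of_le_of_lt ?_ hf1
    have h1 := four_pow_le x a6
    calc (D : ℝ) * 4 ^ ⌊2 * Real.log x⌋₊ ≤ u * x ^ 3 := by gcongr
      _ ≤ u * u ^ 3 := by
        have : x ≤ u := by rw [hxu]; linarith
        gcongr
      _ = u ^ 4 := by ring
      _ ≤ (Real.log z) ^ 4 := pow_le_pow_left₀ hu0.le hlogz 4
  have hlx : 0 ≤ Real.log x := by linarith
  obtain ⟨p₁, hp₁, hp₁x, hp₁f⟩ := exc_prime f D (2 * Real.log x) (by linarith) hD (by linarith) hexc
  obtain ⟨𝓢, a, hS1, hS2, hS3⟩ := hcov x ha5 ⌊F⌋₊ a7 a8 p₁ hp₁ hp₁x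
  obtain ⟨y₀, hy₀⟩ := crt 𝓢 (fun p hp => (hS1 p hp).1) a
  obtain ⟨W, hW⟩ : ∃ W : ℕ, W = ∏ p ∈ 𝓢, p := ⟨_, rfl⟩
  have hW0 : 0 < W := by rw [hW]; exact prod_pos fun p hp => (hS1 p hp).1.pos
  have hlogW : Real.log W ≤ u / 64 := by
    rw [hW, Nat.cast_prod, Real.log_prod (fun p hp => by
      have := (hS1 p hp).1.pos
      positivity)]
    refine hS2.trans ?_
    have e1 : Real.exp (Real.log x / 2) ≤ x := by
      have hx0 : 0 < x := by linarith
      calc Real.exp (Real.log x / 2) ≤ Real.exp (Real.log x) :=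
            Real.exp_le_exp.mpr (by linarith)
        _ = x := Real.exp_log hx0
    rw [hYlog] at a9
    linarith
  obtain ⟨Q, hQ⟩ : ∃ Q : ℕ, Q = D * W := ⟨_, rfl⟩
  have hQ0 : 0 < Q := by rw [hQ]; exact Nat.mul_pos hD hW0
  have hQR : (0 : ℝ) < Q := by exact_mod_cast hQ0
  have hWR : (0 : ℝ) < W := by exact_mod_cast hW0
  have hlogQ : Real.log Q ≤ Real.log D + u / 64 := by
    rw [hQ]
    push_cast
    rw [Real.log_mul hD0.ne' hWR.ne']
    linarith
  have hQ16 : Q ^ 16 ≤ z := by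
    have h1 : (Q : ℝ) ^ 16 ≤ z := by
      rw [← Real.log_le_log_iff (by positivity) hzR0, Real.log_pow]
      push_cast
      calc 16 * Real.log Q ≤ 16 * (Real.log D + u / 64) := by gcongr
        _ ≤ u := b3
        _ ≤ Real.log z := hlogz
    exact_mod_cast h1
  have hfQ : ¬ f ∣ Q := by
    rw [hQ, hW]
    exact hp₁f 𝓢 fun p hp => ⟨(hS1 p hp).1, (hS1 p hp).2.2.1⟩
  -- the class
  have hcop : (1 + D * y₀).Coprime Q := by
    rw [hQ]
    apply Nat.Coprime.mul_right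
    · rw [Nat.coprime_add_mul_left_left]
      exact Nat.coprime_one_left D
    · rw [hW]
      apply Nat.Coprime.prod_right
      intro p hp
      rw [Nat.coprime_comm, Nat.Prime.coprime_iff_not_dvd (hS1 p hp).1]
      intro hd
      apply (hS1 p hp).2.2.2
      have h1 : (p : ℤ) ∣ 1 + D * (y₀ : ℤ) := by exact_mod_cast hd
      have h2 : (p : ℤ) ∣ (y₀ : ℤ) - a p := by
        have h3 : (y₀ : ℤ) ≡ (a p : ℤ) [ZMOD p] := (Int.natCast_modEq_iff).mpr (hy₀ p hp)
        exact h3.symm.dvd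
      have h4 : 1 + (D : ℤ) * (a p : ℤ) = (1 + D * (y₀ : ℤ)) - D * ((y₀ : ℤ) - a p) := by ring
      rw [h4]
      exact dvd_sub h1 (h2.mul_left _)
  have hlow := hf2 Q (1 + D * y₀) hQ0 hQ16 hcop hfQ
  obtain ⟨S, hS⟩ : ∃ S : Finset ℕ, S = (Ioc z (z ^ K)).filter
    (fun p => p.Prime ∧ p ≡ 1 + D * y₀ [MOD Q]) := ⟨_, rfl⟩
  refine ⟨S, ?_, ?_⟩
  · -- the number of primes
    have h1 : SP K z Q (1 + D * y₀) ≤ (S.card : ℝ) * (1 / z) := by
      unfold SP
      rw [← hS, ← nsmul_eq_mul]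
      apply sum_le_card_nsmul
      intro p hp
      rw [hS, mem_filter, mem_Ioc] at hp
      have h2 : (z : ℝ) ≤ p := by exact_mod_cast hp.1.1.le
      exact one_div_le_one_div_of_le hzR0 h2
    have hφ : (0 : ℝ) < Q.totient := by exact_mod_cast Nat.totient_pos.mpr hQ0
    have h2 : c₀ / Q ≤ c₀ / (Q.totient : ℝ) := by
      apply div_le_div_of_nonneg_left hc₀.le hφ
      exact_mod_cast Nat.totient_le Q
    have h3 : c₀ / Q ≤ (S.card : ℝ) * (1 / z) := h2.trans (hlow.trans h1)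
    have h4 : c₀ * z / Q ≤ S.card := by
      rw [mul_one_div, le_div_iff₀ hzR0] at h3
      calc c₀ * z / Q = c₀ / Q * z := by ring
        _ ≤ S.card := h3
    refine le_trans ?_ h4
    have h5 : X ^ (1 / (4 * (K : ℝ))) = Real.exp (u / 2) := by
      rw [Real.rpow_def_of_pos hX0, ← hL, hLu]
      congr 1
      field_simp
      ring
    rw [h5, ← Real.log_le_log_iff (Real.exp_pos _) (by positivity), Real.log_exp,
      Real.log_div (by positivity) hQR.ne', Real.log_mul hc₀.ne' hzR0.ne']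
    linarith
  · -- the properties
    intro n hn
    rw [hS, mem_filter, mem_Ioc] at hn
    obtain ⟨⟨hn1, hn2⟩, hnp, hnb⟩ := hn
    have hnX : (n : ℝ) ≤ X := (by exact_mod_cast hn2 : (n : ℝ) ≤ ((z ^ K : ℕ) : ℝ)).trans hzK
    have hDQ : D ∣ Q := by rw [hQ]; exact dvd_mul_right D W
    have hnD : (n : ℤ) ≡ 1 [ZMOD D] := by
      have h1 : n ≡ 1 + D * y₀ [MOD D] := hnb.of_dvd hDQ
      have h2 : (n : ℤ) ≡ ((1 + D * y₀ : ℕ) : ℤ) [ZMOD D] := (Int.natCast_modEq_iff).mpr h1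
      refine h2.trans ?_
      push_cast
      exact Int.modEq_iff_dvd.mpr ⟨-y₀, by ring⟩
    obtain ⟨y, hy⟩ := Int.modEq_iff_dvd.mp hnD.symm
    have hny : (n : ℤ) = 1 + D * y := by linarith
    refine ⟨hnp, hnX, y, hny, fun g hg m hm hm1 hm2 hmp => ?_⟩
    have hDz : (D : ℤ) ≠ 0 := by exact_mod_cast (by omega : D ≠ 0)
    have hres : ∀ p ∈ 𝓢, y ≡ (a p : ℤ) [ZMOD p] := by
      intro p hp
      have h1 : ((n : ℕ) : ℤ) ≡ ((1 + D * y₀ : ℕ) : ℤ) [ZMOD Q] := (Int.natCast_modEq_iff).mpr hnb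
      rw [hny] at h1
      have h2 := h1.symm.dvd
      push_cast at h2
      have h3 : (1 + (D : ℤ) * y) - (1 + D * (y₀ : ℤ)) = D * (y - y₀) := by ring
      rw [h3, hQ] at h2
      push_cast at h2
      have h4 : (W : ℤ) ∣ y - y₀ := (mul_dvd_mul_iff_left hDz).mp h2
      have h5 : (p : ℤ) ∣ (W : ℤ) := by
        have : p ∣ W := by rw [hW]; exact dvd_prod_of_mem _ hp
        exact_mod_cast this
      have h6 : y ≡ (y₀ : ℤ) [ZMOD p] := (Int.modEq_iff_dvd.mpr (h5.trans h4)).symm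
      exact h6.trans ((Int.natCast_modEq_iff).mpr (hy₀ p hp))
    have hcF : c' * (θ / 4) * rankin X ≤ F := by
      rw [hF, hY]
      calc c' * (θ / 4) * rankin X = c' * (θ / 4 * rankin X) := by ring
        _ ≤ _ := by gcongr
    have hkT : |m - g.eval y| ≤ (⌊F⌋₊ : ℕ) := by
      have h1 : (((m - g.eval y).natAbs : ℕ) : ℝ) ≤ F := by
        rw [Nat.cast_natAbs]
        push_cast
        exact hm.trans hcF
      have h2 : (m - g.eval y).natAbs ≤ ⌊F⌋₊ := Nat.le_floor h1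
      rw [Int.abs_eq_natAbs]
      exact_mod_cast h2
    have hem : g.eval y + (m - g.eval y) = m := by ring
    have hbig : Real.exp u < n := hzge.trans_lt (by exact_mod_cast hn1)
    have hA₀0 : (0 : ℝ) ≤ A₀ := Nat.cast_nonneg _
    have hE0 : (0 : ℝ) ≤ E := Nat.cast_nonneg _
    have hEA0 : (0 : ℝ) ≤ E * A₀ := mul_nonneg hE0 hA₀0
    have hL0 : 0 < L := by rw [hLu]; positivity
    have hxL : x ≤ L := by
      rw [hxu, hLu]
      nlinarith
    have hpowL : 0 ≤ L ^ A := pow_nonneg hL0.le A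
    have hBpos : (2 : ℝ) ≤ B := by rw [hB]; linarith
    have hDu : (D : ℝ) < n := by
      have h1 := Real.add_one_le_exp u
      linarith
    by_cases hbd : bd D E g (m - g.eval y) = 0
    · -- `n` divides `m`
      have h1 := dvd_bd D E g (hGE g hg) (m - g.eval y) y
      rw [hbd, hem, sub_zero, ← hny] at h1
      have hnP : Prime (n : ℤ) := Nat.prime_iff_prime_int.mp hnp
      rcases hnP.dvd_or_dvd h1 with h2 | h2
      · have h3 := hnP.dvd_of_dvd_pow h2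
        have h4 : n ∣ D := by exact_mod_cast h3
        have h5 : (n : ℝ) ≤ D := by exact_mod_cast Nat.le_of_dvd hD h4
        linarith
      · have h3 : Associated (n : ℤ) m := hnP.associated_of_dvd hmp h2
        rcases Int.associated_iff.mp h3 with h4 | h4
        · exact hm1 h4.symm
        · exact hm2 (by linarith)
    · obtain ⟨p, hp1, hp2⟩ := hS3 y hres g hg (m - g.eval y) hkT hbd
      rw [hem] at hp2
      have hpp := hS1 p hp1
      have hple : (p : ℝ) ≤ L ^ A := hpp.2.1.trans (pow_le_pow_left₀ (by linarith) hxL A)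
      have h1 : m.natAbs.Prime := Int.prime_iff_natAbs_prime.mp hmp
      have h2 : p ∣ m.natAbs := Int.natCast_dvd.mp hp2
      have h3 : p = m.natAbs := (Nat.prime_dvd_prime_iff_eq hpp.1 h1).mp h2
      have h4 : |(m : ℝ)| = p := by
        rw [h3, Nat.cast_natAbs, Int.cast_abs]
      -- the value is large
      have hyR : (n : ℝ) = 1 + D * (y : ℝ) := by exact_mod_cast hny
      have hy1 : B + 2 * L ^ A + 2 * L ^ 2 ≤ (y : ℝ) + 1 := by
        have h5 : D * (B + 2 * L ^ A + 2 * L ^ 2) ≤ D * ((y : ℝ) + 1) := by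
          calc D * (B + 2 * L ^ A + 2 * L ^ 2) ≤ Real.exp u := b4
            _ ≤ n := hbig.le
            _ = 1 + D * (y : ℝ) := hyR
            _ ≤ D * ((y : ℝ) + 1) := by linarith
        exact le_of_mul_le_mul_left h5 hD0
      have hL2 : 0 ≤ L ^ 2 := sq_nonneg L
      have hy0 : (1 : ℝ) ≤ y := by
        linarith
      have hy0' : (1 : ℤ) ≤ y := by exact_mod_cast hy0
      have hyabs : |(y : ℝ)| = y := abs_of_pos (by linarith)
      have hyabs' : |y| = y := abs_of_pos (by linarith)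
      have h5 := eval_lower g E (h𝓖 g hg) (hGE g hg) A₀ A₀ (fun i _ => hfA g hg i) (hfA g hg 0) y
        (by rw [hyabs']; exact hy0') (by
          rw [hyabs']
          have : 2 * ((E : ℝ) * A₀) ≤ (y : ℝ) := by linarith
          exact_mod_cast this)
      rw [hyabs'] at h5
      have h6 : (y : ℝ) - 2 * A₀ ≤ 2 * |((g.eval y : ℤ) : ℝ)| := by exact_mod_cast h5
      have h7 : |((g.eval y : ℤ) : ℝ)| ≤ |(m : ℝ)| + F := by
        have e : ((g.eval y : ℤ) : ℝ) = m - (m - (g.eval y : ℤ)) := by ring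
        calc |((g.eval y : ℤ) : ℝ)| = |(m : ℝ) - (m - (g.eval y : ℤ))| := by rw [← e]
          _ ≤ |(m : ℝ)| + |(m : ℝ) - (g.eval y : ℤ)| := abs_sub _ _
          _ ≤ |(m : ℝ)| + F := by
            have := hm.trans hcF
            linarith
      have hFL : F ≤ L ^ 2 := by
        refine a10.trans ?_
        rw [hYlog]
        have h8 : u / 32 ≤ L := by
          rw [hLu]
          nlinarith
        exact pow_le_pow_left₀ (by positivity) h8 2
      have h9 : (y : ℝ) - 2 * A₀ ≤ 2 * (L ^ A + L ^ 2) := by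
        refine h6.trans ?_
        have h10 : |((g.eval y : ℤ) : ℝ)| ≤ L ^ A + L ^ 2 := by
          refine h7.trans ?_
          rw [h4]
          exact add_le_add hple hFL
        exact mul_le_mul_of_nonneg_left h10 (by norm_num)
      rw [hB] at hy1
      linarith

end Pool.Agent.TH621.RQ
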