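import Pool.Agent.TH621.RQ.MainP

set_option autoImplicit false

/-! # Polynomials with rational coefficients at primes -/

namespace Pool.Agent.TH621.RQ

open Finset Polynomial
open Pool.Agent.TH621.RP

theorem mainP_rat (𝓕 : Finset ℚ[X]) (h𝓕 : ∀ f ∈ 𝓕, 1 ≤ f.natDegree) :
    ∃ c δ : ℝ, 0 < c ∧ 0 < δ ∧ ∃ X₀ : ℝ, ∀ X : ℝ, X₀ ≤ X → ∃ S : Finset ℕ,
      X ^ δ ≤ (S.card : ℝ) ∧ ∀ n ∈ S, n.Prime ∧ (n : ℝ) ≤ X ∧
        ∀ f ∈ 𝓕, ∀ m : ℤ, |(m : ℝ) - ((f.eval (n : ℚ) : ℚ) : ℝ)| ≤ c * rankin X →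
          m ≠ n → m ≠ -(n : ℤ) → ¬ Prime m := by
  classical
  set 𝓗 : Finset ℚ[X] := 𝓕.image (fun f => f.comp (X + C 1)) with h𝓗
  set D := dn 𝓗 with hD
  have hD0 : 0 < D := dn_pos 𝓗
  have hdeg : ∀ f ∈ 𝓕, 1 ≤ (f.comp (X + C 1)).natDegree := by
    intro f hf
    rw [natDegree_comp, natDegree_X_add_C, mul_one]
    exact h𝓕 f hf
  set 𝓖 : Finset ℤ[X] := 𝓗.image (fun f => gp f D) with h𝓖
  have hG1 : ∀ g ∈ 𝓖, 1 ≤ g.natDegree := by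
    intro g hg
    obtain ⟨h, hh, rfl⟩ := mem_image.mp hg
    obtain ⟨f, hf, rfl⟩ := mem_image.mp hh
    exact gp_deg 𝓗 _ hh (hdeg f hf)
  obtain ⟨c, δ, hc, hδ, X₁, hmain⟩ := mainP 𝓖 hG1 D (𝓖.sup (fun g => g.natDegree)) hD0
    (fun g hg => le_sup (f := fun g : ℤ[X] => g.natDegree) hg)
  obtain ⟨X₂, hr⟩ := rankin_pow 1 one_pos le_rfl (2 / c)
  refine ⟨c / 2, δ, by positivity, hδ, max X₁ X₂, fun X hX => ?_⟩
  obtain ⟨S, hS1, hS2⟩ := hmain X ((le_max_left _ _).trans hX)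
  obtain ⟨-, -, r3⟩ := hr X ((le_max_right _ _).trans hX)
  refine ⟨S, hS1, fun n hn => ?_⟩
  obtain ⟨hnp, hnX, y, hny, hall⟩ := hS2 n hn
  refine ⟨hnp, hnX, fun f hf m hm hm1 hm2 => ?_⟩
  have hfh : f.comp (Polynomial.X + C 1) ∈ 𝓗 := mem_image.mpr ⟨f, hf, rfl⟩
  have h1 := gp_eval 𝓗 _ hfh y
  rw [← hD] at h1
  have h0 : ((f.comp (Polynomial.X + C 1)).eval (((D : ℤ) * y : ℤ) : ℚ)) = f.eval (n : ℚ) := by
    rw [eval_comp]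
    congr 1
    rw [eval_add, eval_X, eval_C]
    have : ((n : ℤ) : ℚ) = ((1 + D * y : ℤ) : ℚ) := by rw [hny]
    push_cast at this ⊢
    linarith
  rw [h0] at h1
  have h2 : (((gp (f.comp (Polynomial.X + C 1)) D).eval y : ℤ) : ℝ) =
      ((f.eval (n : ℚ) : ℚ) : ℝ) -
        ((Int.fract ((f.comp (Polynomial.X + C 1)).coeff 0) : ℚ) : ℝ) := by
    exact_mod_cast congrArg (fun q : ℚ => (q : ℝ)) h1
  have h3 : (0 : ℝ) ≤ ((Int.fract ((f.comp (Polynomial.X + C 1)).coeff 0) : ℚ) : ℝ) := by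
    exact_mod_cast Int.fract_nonneg _
  have h4 : ((Int.fract ((f.comp (Polynomial.X + C 1)).coeff 0) : ℚ) : ℝ) ≤ 1 := by
    exact_mod_cast (Int.fract_lt_one ((f.comp (Polynomial.X + C 1)).coeff 0)).le
  apply hall _ (mem_image.mpr ⟨_, hfh, rfl⟩) m _ hm1 hm2
  have e3 : (m : ℝ) - (((gp (f.comp (Polynomial.X + C 1)) D).eval y : ℤ) : ℝ) =
      ((m : ℝ) - ((f.eval (n : ℚ) : ℚ) : ℝ)) +
        ((Int.fract ((f.comp (Polynomial.X + C 1)).coeff 0) : ℚ) : ℝ) := by rw [h2]; ring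
  rw [e3]
  refine (abs_add_le _ _).trans ?_
  rw [abs_of_nonneg h3]
  have e1 : (1 : ℝ) ≤ c / 2 * rankin X := by
    have : c / 2 * (2 / c) ≤ c / 2 * rankin X := by gcongr
    have e2 : c / 2 * (2 / c) = 1 := by field_simp
    linarith
  linarith

end Pool.Agent.TH621.RQ
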